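import Pool.Agent.Helper93.MT.Defs
import Pool.Agent.Helper91.CPX.Smooth
import Pool.Agent.Helper85.VA.MainCount

/-!
# MT-8 AllShort: all coordinates short (from helper85's count `main_count`)

Proof. Apply `VA.main_count` with `N = n + 1`, `D = 1`, `r = 1`, `k`, `ε / 2` and `c s b = 1` for all `s, b` (the form `x_0 + ... + x_(n+1)`),
and `sunit_count S (ε / (2 m))` (`Helper91/CPX/Smooth.lean`). For `a ∈ V` let `g = gcd of all a i` (`Finset.univ.gcd a`, normalized, or its
`natAbs`), `g ≥ 1`, `g ≤ N`, all prime factors of `g` are in `S` by the third condition; `x i = a i / g`. The map `a ↦ (g, x)` is injective, so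
`card V ≤ card (image g) * card P` with `P` the set of all these `x`; `card (image g) ≤ C' N^(ε/(2m))`. For `P` use `main_count` with `B = N`, `R = ⌊W⌋₊`
(`1 ≤ R ≤ W`): `card P ≤ C R^(n+2) N^(ε/(2m))`. Conditions: `x i ≠ 0`, `|x i| ≤ N`; `fval (c 0) x = ∑ x i = 0`; `Prim x` because the gcd of the `x i` is `1`
(`Finset.gcd_div_eq_one` or by hand); `NonDeg`: the exponents `b ∈ Exps (n+1) 1` are exactly the unit vectors `e_i`, `wt lam e_i = lam i`, `mval e_i x = x i`, hence
`∑ b with wt lam b = v, c 0 b * mval b x = ∑ i with lam i = v, x i` (`Finset.sum_bij'` / an equivalence `Exps (n+1) 1 ≃ Fin (n+2)`); take `v = lam i` for the `i` with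
`lam i ≠ lam j` and use the fourth condition for `I = {i' | lam i' = v}` (multiplied by `g`).
`PowLike S m k R (x i)`: from `Short`, `|a i| = s ∏ y_j^(m+j)`; write `y_j = u_j v_j` with `u_j` composed of primes of `S` and `v_j` prime to `S`
(`Decomp2.lean` has a decomposition; or `Nat.factorization` products: `v = ∏ p ∈ y.primeFactors \ S, p ^ y.factorization p`).
`g ∣ s ∏ u_j^(m+j)` because `g` is coprime to the `v_j`. So `|x i| = A * ∏_{j < k} v_j^(m+j)` with `A = (s ∏ u_j^(m+j) / g) * ∏_{k ≤ j < m} v_j^(m+j)`; the product of the primes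
of `A` outside `S` divides (is at most) `∏_{k ≤ j} v_j ≤ ∏_{k ≤ j} y_j ≤ W`, and it is a natural number, so it is at most `R`. For `k > m` put `z j = 1` for `j ≥ m`
(`z j = if h : j < m then v ⟨j, h⟩ else 1`, `e j = m + j` for `j : Fin k`).
-/

set_option autoImplicit false

open Pool.Agent.Helper87.Camp Pool.Agent.Helper91.CPX

namespace Pool.Agent.Helper93.MT

/-- the parts of `y` composed of primes of `S` and prime to `S` -/
private lemma as_split (S : Finset ℕ) : ∀ y : ℕ, 0 < y → ∃ u v : ℕ, y = u * v ∧ 0 < u ∧ 0 < v ∧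
    (∀ p : ℕ, p.Prime → p ∣ u → p ∈ S) ∧ ∀ p : ℕ, p.Prime → p ∣ v → p ∉ S := by
  intro y
  induction y using Nat.strong_induction_on with
  | _ y ih =>
    intro hy
    by_cases hc : ∀ p : ℕ, p.Prime → p ∣ y → p ∉ S
    · exact ⟨1, y, (one_mul y).symm, one_pos, hy,
        fun p hp hp1 => absurd (Nat.dvd_one.1 hp1) hp.ne_one, hc⟩
    · push Not at hc
      obtain ⟨p, hp, ⟨T, hT⟩, hpS⟩ := hc
      have hT1 : 0 < T := by
        rcases Nat.eq_zero_or_pos T with h | h
        · rw [h, mul_zero] at hT; omega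
        · exact h
      have hTy : T < y := by
        rw [hT]
        exact lt_mul_of_one_lt_left (by omega) hp.one_lt
      obtain ⟨u, v, huv, hu, hv, h1, h2⟩ := ih T hTy hT1
      refine ⟨p * u, v, by rw [hT, huv, mul_assoc], Nat.mul_pos hp.pos hu, hv, ?_, h2⟩
      intro r hr hrpu
      rcases (Nat.Prime.dvd_mul hr).1 hrpu with h | h
      · rw [(Nat.prime_dvd_prime_iff_eq hr hp).1 h]
        exact hpS
      · exact h1 r hr h

/-- extension of a family by `1` -/
private def as_ext {m : ℕ} (φ : Fin m → ℕ) (j : ℕ) : ℕ := if h : j < m then φ ⟨j, h⟩ else 1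

private lemma as_ext_val {m : ℕ} (φ : Fin m → ℕ) (j : Fin m) : as_ext φ (j : ℕ) = φ j := by
  unfold as_ext
  rw [dif_pos j.isLt]

private lemma as_ext_ge {m : ℕ} (φ : Fin m → ℕ) {j : ℕ} (hj : ¬ j < m) : as_ext φ j = 1 := by
  unfold as_ext
  rw [dif_neg hj]

/-- `PowLike` for the quotient of a short integer by an `S`-unit -/
private lemma as_pow {S : Finset ℕ} {m k : ℕ} {W : ℝ} {a : ℤ}
    (ha : Short S m k W a) {g : ℕ} (hg : 0 < g) (hgS : ∀ p : ℕ, p.Prime → p ∣ g → p ∈ S) {x : ℤ}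
    (hx : a = (g : ℤ) * x) : Helper85.VA.PowLike S m k ⌊W⌋₊ x := by
  obtain ⟨s, y, hs, hsS, hy, hay, hyW⟩ := ha
  have hsp : ∀ j, ∃ u v : ℕ, y j = u * v ∧ 0 < u ∧ 0 < v ∧
    (∀ p : ℕ, p.Prime → p ∣ u → p ∈ S) ∧ ∀ p : ℕ, p.Prime → p ∣ v → p ∉ S :=
    fun j => as_split S (y j) (hy j)
  choose u v huv hu hv huS hvS using hsp
  have hnat : a.natAbs = g * x.natAbs := by
    rw [hx, Int.natAbs_mul, Int.natAbs_natCast]
  -- the two parts
  obtain ⟨Ut, hUt⟩ : ∃ Ut, Ut = s * ∏ j, u j ^ (m + (j : ℕ)) := ⟨_, rfl⟩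
  obtain ⟨Vt, hVt⟩ : ∃ Vt, Vt = ∏ j, v j ^ (m + (j : ℕ)) := ⟨_, rfl⟩
  have hUV : a.natAbs = Ut * Vt := by
    rw [hay, hUt, hVt, mul_assoc, ← Finset.prod_mul_distrib]
    congr 1
    apply Finset.prod_congr rfl
    intro j _
    rw [huv j, mul_pow]
  have hUS : ∀ p : ℕ, p.Prime → p ∣ Ut → p ∈ S := by
    intro p hp hpU
    rw [hUt] at hpU
    rcases (Nat.Prime.dvd_mul hp).1 hpU with h | h
    · exact hsS p hp h
    · obtain ⟨j, -, hj⟩ := (Prime.dvd_finsetProd_iff hp.prime _).1 h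
      exact huS j p hp (hp.dvd_of_dvd_pow hj)
  have hVS : ∀ p : ℕ, p.Prime → p ∣ Vt → p ∉ S := by
    intro p hp hpV
    rw [hVt] at hpV
    obtain ⟨j, -, hj⟩ := (Prime.dvd_finsetProd_iff hp.prime _).1 hpV
    exact hvS j p hp (hp.dvd_of_dvd_pow hj)
  have hcop : Nat.Coprime g Vt := by
    by_contra hc
    obtain ⟨p, hp, hpg, hpV⟩ := Nat.Prime.not_coprime_iff_dvd.1 hc
    exact hVS p hp hpV (hgS p hp hpg)
  have hgU : g ∣ Ut := by
    apply hcop.dvd_of_dvd_mul_right
    rw [← hUV, hnat]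
    exact dvd_mul_right _ _
  obtain ⟨h, hh⟩ := hgU
  have hxn : x.natAbs = h * Vt := by
    apply Nat.eq_of_mul_eq_mul_left hg
    rw [← hnat, hUV, hh, mul_assoc]
  -- the extended families
  obtain ⟨F, hF⟩ : ∃ F : ℕ → ℕ, F = fun j => as_ext v j ^ (m + j) := ⟨_, rfl⟩
  have hVF : Vt = ∏ j ∈ Finset.range m, F j := by
    rw [hVt, Finset.prod_range]
    apply Finset.prod_congr rfl
    intro j _
    rw [hF]
    simp only
    rw [as_ext_val]
  have hFk : ∏ j ∈ Finset.range k, F j = ∏ j ∈ (Finset.range m).filter (fun j => j < k), F j := by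
    symm
    apply Finset.prod_subset
    · intro j hj
      rw [Finset.mem_filter] at hj
      exact Finset.mem_range.2 hj.2
    · intro j hj hj'
      rw [Finset.mem_range] at hj
      have hjm : ¬ j < m := fun hjm => hj' (Finset.mem_filter.2 ⟨Finset.mem_range.2 hjm, hj⟩)
      rw [hF]
      simp only
      rw [as_ext_ge v hjm, one_pow]
  refine ⟨h * ∏ j ∈ (Finset.range m).filter (fun j => ¬ j < k), F j,
    fun j : Fin k => as_ext v (j : ℕ), fun j : Fin k => m + (j : ℕ), ?_, fun j => Nat.le_add_right _ _, ?_⟩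
  · have h1 : ∏ j : Fin k, as_ext v (j : ℕ) ^ (m + (j : ℕ)) = ∏ j ∈ Finset.range k, F j := by
      rw [Finset.prod_range]
      apply Finset.prod_congr rfl
      intro j _
      rw [hF]
    rw [h1, hFk, hxn, hVF, ← Finset.prod_filter_mul_prod_filter_not (Finset.range m)
      (fun j => j < k) F]
    ring
  · -- the radical
    apply Nat.le_floor
    refine le_trans ?_ hyW
    norm_cast
    obtain ⟨Tv, hTv⟩ : ∃ Tv, Tv = ∏ j ∈ (Finset.range m).filter (fun j => ¬ j < k), as_ext v j :=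
      ⟨_, rfl⟩
    have hvpos : ∀ j, 0 < as_ext v j := by
      intro j
      by_cases hj : j < m
      · have := as_ext_val v ⟨j, hj⟩
        simp only at this
        rw [this]
        exact hv _
      · rw [as_ext_ge v hj]
        exact one_pos
    have hTv0 : Tv ≠ 0 := by
      rw [hTv]
      exact (Finset.prod_pos fun j _ => hvpos j).ne'
    have hsub : (h * ∏ j ∈ (Finset.range m).filter (fun j => ¬ j < k), F j).primeFactors \ S ⊆
        Tv.primeFactors := by
      intro p hp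
      rw [Finset.mem_sdiff, Nat.mem_primeFactors] at hp
      obtain ⟨⟨hpp, hpd, -⟩, hpS⟩ := hp
      rw [Nat.mem_primeFactors]
      refine ⟨hpp, ?_, hTv0⟩
      rcases (Nat.Prime.dvd_mul hpp).1 hpd with h1 | h1
      · exact absurd (hUS p hpp (by rw [hh]; exact h1.mul_left g)) hpS
      · obtain ⟨j, hj, hj'⟩ := (Prime.dvd_finsetProd_iff hpp.prime _).1 h1
        rw [hF] at hj'
        rw [hTv]
        exact (hpp.dvd_of_dvd_pow hj').trans (Finset.dvd_prod_of_mem (as_ext v) hj)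
    calc ∏ p ∈ (h * ∏ j ∈ (Finset.range m).filter (fun j => ¬ j < k), F j).primeFactors \ S, p
        ≤ ∏ p ∈ Tv.primeFactors, p := by
          apply Finset.prod_le_prod_of_subset_of_one_le' hsub
          intro p hp _
          exact (Nat.prime_of_mem_primeFactors hp).one_lt.le
      _ ≤ Tv := Nat.le_of_dvd (Nat.pos_of_ne_zero hTv0) (Nat.prod_primeFactors_dvd Tv)
      _ ≤ ∏ j ∈ Finset.univ.filter (fun j : Fin m => k ≤ (j : ℕ)), y j := by
          rw [hTv, Finset.prod_filter, Finset.prod_filter, Finset.prod_range]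
          apply Finset.prod_le_prod'
          intro j _
          by_cases hj : k ≤ (j : ℕ)
          · rw [if_pos (by omega), if_pos hj, as_ext_val, huv j]
            exact Nat.le_mul_of_pos_left _ (hu j)
          · rw [if_neg (by omega), if_neg hj]

/-- unit vectors -/
private def as_unit (n : ℕ) (i : Fin (n + 1 + 1)) : Helper85.VA.Exps (n + 1) 1 :=
  ⟨fun i' => if i' = i then 1 else 0, by
    rw [Finset.sum_eq_single i]
    · simp
    · intro b _ hb
      simp [hb]
    · intro h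
      exact absurd (Finset.mem_univ i) h⟩

private lemma as_unit_bij (n : ℕ) : Function.Bijective (as_unit n) := by
  constructor
  · intro i i' hii
    have h1 := congrArg (fun b : Helper85.VA.Exps (n + 1) 1 => b.1 i) hii
    unfold as_unit at h1
    simp only [if_true] at h1
    by_contra hne
    rw [if_neg hne] at h1
    exact absurd h1 (by decide)
  · intro b
    obtain ⟨b, hb⟩ := b
    have h1 : ∃ i, b i ≠ 0 := by
      by_contra hcon
      push Not at hcon
      simp [hcon] at hb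
    obtain ⟨i, hi⟩ := h1
    have hi1 : (b i : ℕ) = 1 := by
      have h2 := (b i).isLt
      have h3 : (b i : ℕ) ≠ 0 := fun h => hi (Fin.ext h)
      omega
    refine ⟨i, ?_⟩
    apply Subtype.ext
    funext i'
    change (if i' = i then (1 : Fin (1 + 1)) else 0) = b i'
    by_cases hii : i' = i
    · rw [if_pos hii, hii]
      exact Fin.ext hi1.symm
    · rw [if_neg hii]
      have h4 : ∑ j ∈ Finset.univ.erase i, (b j : ℕ) = 0 := by
        have h5 := Finset.add_sum_erase Finset.univ (fun j => (b j : ℕ)) (Finset.mem_univ i)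
        omega
      have h6 := (Finset.sum_eq_zero_iff.1 h4) i' (Finset.mem_erase.2 ⟨hii, Finset.mem_univ _⟩)
      exact Fin.ext h6.symm

private lemma as_mval (n : ℕ) (i : Fin (n + 1 + 1)) (x : Fin (n + 1 + 1) → ℤ) :
    Helper85.VA.mval (as_unit n i) x = x i := by
  unfold Helper85.VA.mval as_unit
  simp only
  rw [Finset.prod_eq_single i]
  · simp
  · intro b _ hb
    simp [hb]
  · intro h
    exact absurd (Finset.mem_univ i) h

private lemma as_wt (n : ℕ) (i : Fin (n + 1 + 1)) (lam : Fin (n + 1 + 1) → ℕ) :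
    Helper85.VA.wt lam (as_unit n i) = lam i := by
  unfold Helper85.VA.wt as_unit
  simp only
  rw [Finset.sum_eq_single i]
  · simp
  · intro b _ hb
    simp [hb]
  · intro h
    exact absurd (Finset.mem_univ i) h

private lemma as_sum (n : ℕ) (f : Helper85.VA.Exps (n + 1) 1 → ℤ) :
    ∑ b, f b = ∑ i, f (as_unit n i) :=
  (Function.Bijective.sum_comp (as_unit_bij n) f).symm

theorem all_short (n k : ℕ) (hn : 1 ≤ n) (ε : ℝ) (hε : 0 < ε) :
    ∃ m1 : ℕ, 1 ≤ m1 ∧ ∀ m : ℕ, m1 ≤ m → ∀ S : Finset ℕ, ∃ C : ℝ, 1 ≤ C ∧ ∀ N : ℕ, 1 ≤ N →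
      ∀ W : ℝ, 1 ≤ W → ∀ V : Finset (Fin (n + 2) → ℤ),
      (∀ a ∈ V, (∀ i, a i ∈ Aset S m N) ∧ ∑ i, a i = 0 ∧
        (∀ p : ℕ, p.Prime → p ∉ S → ∃ j, ¬ (p : ℤ) ∣ a j) ∧
        (∀ I : Finset (Fin (n + 2)), I.Nonempty → I ≠ Finset.univ → ∑ i ∈ I, a i ≠ 0) ∧
        ∀ i, Short S m k W (a i)) →
      (V.card : ℝ) ≤ C * W ^ (n + 2) * (N : ℝ) ^ (ε / (m : ℝ)) := by
  classical
  obtain ⟨m0, hm0⟩ := Helper85.VA.main_count (n + 1) 1 1 k (ε / 2) (by positivity)
  refine ⟨max m0 1, le_max_right _ _, fun m hm S => ?_⟩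
  have hm1 : 1 ≤ m := (le_max_right _ _).trans hm
  have hmpos : (0 : ℝ) < m := by exact_mod_cast hm1
  obtain ⟨C1, hC1, hmain⟩ := hm0 m ((le_max_left _ _).trans hm) (fun _ _ => 1) S
  obtain ⟨C2, hC2, hunit⟩ := sunit_count S (ε / (2 * m)) (by positivity)
  refine ⟨C2 * C1 + 1, by nlinarith, fun N hN W hW V hV => ?_⟩
  have hN0 : (0 : ℝ) < N := by exact_mod_cast hN
  obtain ⟨G, hG⟩ : ∃ G : (Fin (n + 2) → ℤ) → ℕ,
    G = fun a => Finset.univ.gcd (fun i => (a i).natAbs) := ⟨_, rfl⟩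
  have hGd : ∀ (a : Fin (n + 2) → ℤ) (i : Fin (n + 2)), G a ∣ (a i).natAbs := by
    intro a i
    rw [hG]
    exact Finset.gcd_dvd (Finset.mem_univ i)
  have hGge : ∀ (a : Fin (n + 2) → ℤ) (d : ℕ), (∀ i, d ∣ (a i).natAbs) → d ∣ G a := by
    intro a d hd
    rw [hG]
    exact Finset.dvd_gcd fun i _ => hd i
  have hne : ∀ a ∈ V, ∀ i, a i ≠ 0 := fun a ha i => (mem_Aset.1 ((hV a ha).1 i)).1
  have hleN : ∀ a ∈ V, ∀ i, (a i).natAbs ≤ N := fun a ha i => (mem_Aset.1 ((hV a ha).1 i)).2.1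
  have hGpos : ∀ a ∈ V, 0 < G a := by
    intro a ha
    have h1 := hGd a 0
    rcases Nat.eq_zero_or_pos (G a) with h | h
    · rw [h, zero_dvd_iff, Int.natAbs_eq_zero] at h1
      exact absurd h1 (hne a ha 0)
    · exact h
  have hGS : ∀ a ∈ V, ∀ p : ℕ, p.Prime → p ∣ G a → p ∈ S := by
    intro a ha p hp hpG
    by_contra hpS
    obtain ⟨j, hj⟩ := (hV a ha).2.2.1 p hp hpS
    exact hj (Int.natCast_dvd.2 (hpG.trans (hGd a j)))
  obtain ⟨x, hx⟩ : ∃ x : (Fin (n + 2) → ℤ) → Fin (n + 2) → ℤ,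
    x = fun a i => a i / (G a : ℤ) := ⟨_, rfl⟩
  have hax : ∀ a i, a i = (G a : ℤ) * x a i := by
    intro a i
    rw [hx]
    exact (Int.mul_ediv_cancel' (Int.natCast_dvd.2 (hGd a i))).symm
  -- injectivity
  have hcard : V.card ≤ (V.image G).card * (V.image x).card := by
    rw [← Finset.card_product]
    apply Finset.card_le_card_of_injOn (fun a => (G a, x a))
    · intro a ha
      exact Finset.mem_coe.2 (Finset.mem_product.2 ⟨Finset.mem_image_of_mem G ha,
        Finset.mem_image_of_mem x ha⟩)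
    · intro a _ b _ hab
      simp only [Prod.mk.injEq] at hab
      funext i
      rw [hax a i, hax b i, hab.1, hab.2]
  have hcardG : ((V.image G).card : ℝ) ≤ C2 * (N : ℝ) ^ (ε / (2 * m)) := by
    apply hunit N hN
    intro v hv
    obtain ⟨a, ha, rfl⟩ := Finset.mem_image.1 hv
    exact ⟨hGpos a ha, (Nat.le_of_dvd (Int.natAbs_pos.2 (hne a ha 0)) (hGd a 0)).trans
      (hleN a ha 0), hGS a ha⟩
  have hR1 : 1 ≤ ⌊W⌋₊ := Nat.le_floor (by exact_mod_cast hW)
  have hcardx : ((V.image x).card : ℝ) ≤ C1 * (⌊W⌋₊ : ℝ) ^ (n + 1 + 1) *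
      (N : ℝ) ^ (ε / 2 / m) := by
    apply hmain N ⌊W⌋₊ hN hR1
    intro y hy
    obtain ⟨a, ha, rfl⟩ := Finset.mem_image.1 hy
    have hG0 : (G a : ℤ) ≠ 0 := by exact_mod_cast (hGpos a ha).ne'
    have hsumI : ∀ I : Finset (Fin (n + 2)), ∑ i ∈ I, a i = (G a : ℤ) * ∑ i ∈ I, x a i := by
      intro I
      rw [Finset.mul_sum]
      exact Finset.sum_congr rfl fun i _ => hax a i
    refine ⟨fun i => ⟨?_, ?_⟩, ?_, ?_, ?_, ?_⟩
    · intro h0
      apply hne a ha i
      rw [hax a i, h0, mul_zero]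
    · have h1 : (x a i).natAbs ≤ (a i).natAbs := by
        conv_rhs => rw [hax a i]
        rw [Int.natAbs_mul, Int.natAbs_natCast]
        exact Nat.le_mul_of_pos_left _ (hGpos a ha)
      rw [Int.abs_eq_natAbs]
      exact_mod_cast h1.trans (hleN a ha i)
    · intro _
      unfold Helper85.VA.fval
      rw [as_sum n]
      have h1 : ∑ i, x a i = 0 := by
        have h2 := hsumI Finset.univ
        rw [(hV a ha).2.1] at h2
        exact (mul_eq_zero.1 h2.symm).resolve_left hG0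
      rw [← h1]
      apply Finset.sum_congr rfl
      intro i _
      rw [as_mval, one_mul]
    · intro p hp
      by_contra hcon
      push Not at hcon
      have h1 : p * G a ∣ G a := by
        apply hGge
        intro i
        rw [hax a i, Int.natAbs_mul, Int.natAbs_natCast, mul_comm]
        exact mul_dvd_mul_left _ (Int.natCast_dvd.1 (hcon i))
      have h2 := Nat.le_of_dvd (hGpos a ha) h1
      have h3 := hp.two_le
      have h4 := hGpos a ha
      nlinarith
    · rintro lam ⟨i, j, hij⟩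
      refine ⟨0, lam i, ?_⟩
      have h1 : ∑ b ∈ Finset.univ.filter
          (fun b : Helper85.VA.Exps (n + 1) 1 => Helper85.VA.wt lam b = lam i),
            (1 : ℤ) * Helper85.VA.mval b (x a) =
          ∑ i' ∈ Finset.univ.filter (fun i' => lam i' = lam i), x a i' := by
        rw [Finset.sum_filter, as_sum n, Finset.sum_filter]
        apply Finset.sum_congr rfl
        intro i' _
        rw [as_wt, as_mval, one_mul]
      rw [h1]
      intro h0
      have h2 := hsumI (Finset.univ.filter (fun i' => lam i' = lam i))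
      rw [h0, mul_zero] at h2
      refine (hV a ha).2.2.2.1 _ ⟨i, by simp⟩ ?_ h2
      intro huniv
      have h3 : j ∈ Finset.univ.filter (fun i' => lam i' = lam i) := by
        rw [huniv]
        exact Finset.mem_univ j
      rw [Finset.mem_filter] at h3
      exact hij h3.2.symm
    · intro i
      exact as_pow ((hV a ha).2.2.2.2 i) (hGpos a ha) (hGS a ha) (hax a i)
  have hfl : ((⌊W⌋₊ : ℕ) : ℝ) ≤ W := Nat.floor_le (by linarith)
  have hexp : (N : ℝ) ^ (ε / (2 * m)) * (N : ℝ) ^ (ε / 2 / m) = (N : ℝ) ^ (ε / (m : ℝ)) := by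
    rw [← Real.rpow_add hN0]
    congr 1
    field_simp
    norm_num
  have hN1 : 0 ≤ (N : ℝ) ^ (ε / (m : ℝ)) := by positivity
  have hWn : 0 ≤ W ^ (n + 2) := by positivity
  calc (V.card : ℝ) ≤ ((V.image G).card : ℝ) * ((V.image x).card : ℝ) := by exact_mod_cast hcard
    _ ≤ (C2 * (N : ℝ) ^ (ε / (2 * m))) * (C1 * W ^ (n + 2) * (N : ℝ) ^ (ε / 2 / m)) := by
        refine mul_le_mul hcardG (hcardx.trans ?_) (Nat.cast_nonneg _) ?_
        · refine mul_le_mul_of_nonneg_right (mul_le_mul_of_nonneg_left ?_ hC1) ?_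
          · exact pow_le_pow_left₀ (Nat.cast_nonneg _) hfl _
          · exact Real.rpow_nonneg hN0.le _
        · exact mul_nonneg (zero_le_one.trans hC2) (Real.rpow_nonneg hN0.le _)
    _ = (C2 * C1) * W ^ (n + 2) * ((N : ℝ) ^ (ε / (2 * m)) * (N : ℝ) ^ (ε / 2 / m)) := by ring
    _ = (C2 * C1) * W ^ (n + 2) * (N : ℝ) ^ (ε / (m : ℝ)) := by rw [hexp]
    _ ≤ (C2 * C1 + 1) * W ^ (n + 2) * (N : ℝ) ^ (ε / (m : ℝ)) := by
        have : 0 ≤ W ^ (n + 2) * (N : ℝ) ^ (ε / (m : ℝ)) := mul_nonneg hWn hN1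
        nlinarith

end Pool.Agent.Helper93.MT
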