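import Pool.Agent.Helper93.MT.Defs

/-!
# MT-10 Bds: powers of `B`, lower bound for the number of `m`-full numbers, boxes
-/

set_option autoImplicit false

open Pool.Agent.Helper87.Camp Pool.Agent.Helper91.CPX

namespace Pool.Agent.Helper93.MT

lemma ev_le (C C0 α β η : ℝ) (hC0 : 0 ≤ C0) (hαβ : α < β) (hη : 0 < η) :
    ∃ B0 : ℕ, ∀ B : ℕ, B0 ≤ B → C * (C0 * (B : ℝ)) ^ α ≤ η * (B : ℝ) ^ β := by
  have h1 : Filter.Tendsto (fun B : ℕ => (B : ℝ) ^ (β - α)) Filter.atTop Filter.atTop :=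
    (tendsto_rpow_atTop (by linarith)).comp tendsto_natCast_atTop_atTop
  have h2 := h1.eventually_ge_atTop (C * C0 ^ α / η)
  obtain ⟨B0, hB0⟩ := Filter.eventually_atTop.mp h2
  refine ⟨max B0 1, fun B hB => ?_⟩
  have hB1 : 1 ≤ B := le_trans (le_max_right _ _) hB
  have hBp : (0 : ℝ) < B := by exact_mod_cast hB1
  have h3 := hB0 B (le_trans (le_max_left _ _) hB)
  rw [Real.mul_rpow hC0 hBp.le]
  rw [div_le_iff₀ hη] at h3
  have h4 : (B : ℝ) ^ β = (B : ℝ) ^ α * (B : ℝ) ^ (β - α) := by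
    rw [← Real.rpow_add hBp]; congr 1; ring
  rw [h4]
  have h5 : 0 < (B : ℝ) ^ α := Real.rpow_pos_of_pos hBp _
  nlinarith [mul_le_mul_of_nonneg_left h3 h5.le]

lemma nfull_pow (S : Finset ℕ) (m t : ℕ) : NFull S m (t ^ m) := by
  intro p hp _ hd
  exact pow_dvd_pow_of_dvd (hp.dvd_of_dvd_pow hd) m

lemma aset_lower (S : Finset ℕ) (m : ℕ) (hm : 1 ≤ m) (M : ℕ) (hM : 1 ≤ M) :
    (M : ℝ) ^ (1 / (m : ℝ)) ≤ ((Aset S m M).card : ℝ) := by
  classical
  have hm0 : (0 : ℝ) < m := by exact_mod_cast hm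
  have hM1 : (1 : ℝ) ≤ M := by exact_mod_cast hM
  have hM0 : (0 : ℝ) ≤ M := by linarith
  set t : ℕ := ⌊(M : ℝ) ^ (1 / (m : ℝ))⌋₊ with ht
  have hx1 : (1 : ℝ) ≤ (M : ℝ) ^ (1 / (m : ℝ)) := Real.one_le_rpow hM1 (by positivity)
  have ht1 : 1 ≤ t := by
    rw [ht]
    exact Nat.le_floor (by simpa using hx1)
  have htm : t ^ m ≤ M := by
    have h1 : (t : ℝ) ≤ (M : ℝ) ^ (1 / (m : ℝ)) := Nat.floor_le (by positivity)
    have h2 : (t : ℝ) ^ m ≤ ((M : ℝ) ^ (1 / (m : ℝ))) ^ m := pow_le_pow_left₀ (by positivity) h1 m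
    have h3 : ((M : ℝ) ^ (1 / (m : ℝ))) ^ m = M := by
      rw [one_div]
      exact Real.rpow_inv_natCast_pow hM0 (by omega)
    rw [h3] at h2
    exact_mod_cast h2
  have hlt : (M : ℝ) ^ (1 / (m : ℝ)) < (t : ℝ) + 1 := Nat.lt_floor_add_one _
  set F1 : Finset ℤ := (Finset.Icc 1 t).image (fun s : ℕ => ((s ^ m : ℕ) : ℤ)) with hF1
  set F2 : Finset ℤ := (Finset.Icc 1 t).image (fun s : ℕ => -((s ^ m : ℕ) : ℤ)) with hF2
  have hinj : ∀ s s' : ℕ, ((s ^ m : ℕ) : ℤ) = ((s' ^ m : ℕ) : ℤ) → s = s' := by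
    intro s s' h
    have h1 : s ^ m = s' ^ m := by exact_mod_cast h
    exact (Nat.pow_left_injective (by omega : m ≠ 0)) h1
  have hc1 : F1.card = t := by
    rw [hF1, Finset.card_image_of_injective _ (fun s s' h => hinj s s' h), Nat.card_Icc]
    omega
  have hc2 : F2.card = t := by
    rw [hF2, Finset.card_image_of_injective _ (fun s s' h => hinj s s' (neg_injective h)),
      Nat.card_Icc]
    omega
  have hdisj : Disjoint F1 F2 := by
    rw [Finset.disjoint_left]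
    intro a h1 h2
    rw [hF1, Finset.mem_image] at h1
    rw [hF2, Finset.mem_image] at h2
    obtain ⟨s, hs, rfl⟩ := h1
    obtain ⟨s', hs', h3⟩ := h2
    have h4 : 0 < s ^ m := pow_pos (by have := (Finset.mem_Icc.mp hs).1; omega) m
    have h5 : 0 < s' ^ m := pow_pos (by have := (Finset.mem_Icc.mp hs').1; omega) m
    omega
  have hmem : ∀ s ∈ Finset.Icc 1 t, ∀ a : ℤ, a.natAbs = s ^ m → a ∈ Aset S m M := by
    intro s hs a ha
    have h1 := Finset.mem_Icc.mp hs
    have h4 : 0 < s ^ m := pow_pos (by omega) m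
    rw [mem_Aset]
    refine ⟨?_, ?_, ?_⟩
    · intro h0
      rw [h0] at ha
      simp at ha
      omega
    · rw [ha]
      exact (Nat.pow_le_pow_left h1.2 m).trans htm
    · rw [ha]
      exact nfull_pow S m s
  have hsub : F1 ∪ F2 ⊆ Aset S m M := by
    intro a ha
    rw [Finset.mem_union] at ha
    rcases ha with ha | ha
    · rw [hF1, Finset.mem_image] at ha
      obtain ⟨s, hs, rfl⟩ := ha
      exact hmem s hs _ (Int.natAbs_natCast _)
    · rw [hF2, Finset.mem_image] at ha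
      obtain ⟨s, hs, rfl⟩ := ha
      exact hmem s hs _ (by rw [Int.natAbs_neg, Int.natAbs_natCast])
  have hcard := Finset.card_le_card hsub
  rw [Finset.card_union_of_disjoint hdisj, hc1, hc2] at hcard
  have h6 : (t : ℝ) + t ≤ ((Aset S m M).card : ℝ) := by exact_mod_cast hcard
  have h7 : (1 : ℝ) ≤ t := by exact_mod_cast ht1
  linarith

/-- The cardinality of a box with one side changed. -/
lemma card_pi_update {n : ℕ} (i0 : Fin n) (A : Fin n → Finset ℤ) (A0 : Finset ℤ) :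
    ((Fintype.piFinset (Function.update A i0 A0)).card : ℝ) =
      (A0.card : ℝ) * ∏ i ∈ Finset.univ.erase i0, ((A i).card : ℝ) := by
  rw [Fintype.card_piFinset, ← Finset.mul_prod_erase Finset.univ _ (Finset.mem_univ i0),
    Function.update_self]
  push_cast
  congr 1
  apply Finset.prod_congr rfl
  intro i hi
  rw [Function.update_of_ne (Finset.ne_of_mem_erase hi)]

lemma mem_pi_update {n : ℕ} (i0 : Fin n) (A : Fin n → Finset ℤ) (A0 : Finset ℤ)
    (v : Fin n → ℤ) (h0 : v i0 ∈ A0) (h : ∀ i, v i ∈ A i) :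
    v ∈ Fintype.piFinset (Function.update A i0 A0) := by
  rw [Fintype.mem_piFinset]
  intro i
  by_cases hi : i = i0
  · subst hi
    rw [Function.update_self]
    exact h0
  · rw [Function.update_of_ne hi]
    exact h i

end Pool.Agent.Helper93.MT
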