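import Pool.Agent.Helper93.MT.Classes

/-!
# MT-2 CardNS: the number of `m`-full numbers which are not short

Proof. `classes` gives `c, y, Γ`. For fixed `γ ∈ Γ` the map `a ↦ y a` is injective on the class `c a = γ` (`a` is determined by the
sign `γ.1`, by `γ.2.1` and `y a`) and has values in `piFinset (fun j => Icc 1 (2 ^ γ.2.2 j))` (`Nat.le_pow_clog`), which has
`∏ 2 ^ γ.2.2 j ≤ 2^m N^(1/m) W^(-k/m)` elements (if the class is not empty). Sum over `γ ∈ Γ` (`Finset.card_eq_sum_card_fiberwise`).
Constant `C * 2^m`.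
-/

set_option autoImplicit false

open Pool.Agent.Helper87.Camp Pool.Agent.Helper91.CPX

namespace Pool.Agent.Helper93.MT

theorem card_ns (S : Finset ℕ) (m k : ℕ) (hm : 1 ≤ m) (ε : ℝ) (hε : 0 < ε) :
    ∃ C : ℝ, 1 ≤ C ∧ ∀ N : ℕ, 1 ≤ N → ∀ W : ℝ, 1 ≤ W →
      ((NS S m k N W).card : ℝ) ≤
        C * (N : ℝ) ^ (1 / (m : ℝ) + ε) * W ^ (-((k : ℝ) / (m : ℝ))) := by
  obtain ⟨C, hC, h⟩ := classes S m k hm ε hε
  refine ⟨C * 2 ^ m, one_le_mul_of_one_le_of_one_le hC (one_le_pow₀ (by norm_num)),
    fun N hN W hW => ?_⟩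
  obtain ⟨c, y, Γ, hΓ, hc⟩ := h N hN W hW
  have hN0 : (0 : ℝ) < N := by exact_mod_cast hN
  have hW0 : (0 : ℝ) < W := by linarith
  set K : ℝ := 2 ^ m * (N : ℝ) ^ (1 / (m : ℝ)) * W ^ (-((k : ℝ) / (m : ℝ))) with hK
  have hK0 : 0 ≤ K := by positivity
  have h1 : ((NS S m k N W).card : ℝ) ≤ K * Γ.card := by
    apply card_le_real c
    · exact fun a ha => (hc a ha).1
    · intro γ _
      rcases ((NS S m k N W).filter (fun a => c a = γ)).eq_empty_or_nonempty with h0 | ⟨a0, ha0⟩
      · rw [h0, Finset.card_empty, Nat.cast_zero]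
        exact hK0
      · have hsize : ((∏ j, 2 ^ γ.2.2 j : ℕ) : ℝ) ≤ K := by
          rw [Finset.mem_filter] at ha0
          have h2 := (hc a0 ha0.1).2.2.2.2
          rwa [ha0.2] at h2
        refine le_trans ?_ hsize
        have h3 : ((NS S m k N W).filter (fun a => c a = γ)).card ≤
            (Fintype.piFinset (fun j : Fin m => Finset.Icc 1 (2 ^ γ.2.2 j))).card := by
          refine Finset.card_le_card_of_injOn y ?_ ?_
          · intro a ha
            rw [Finset.mem_coe, Finset.mem_filter] at ha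
            obtain ⟨_, _, h4, h5, _⟩ := hc a ha.1
            rw [Finset.mem_coe, Fintype.mem_piFinset]
            intro j
            rw [Finset.mem_Icc]
            refine ⟨h4 j, ?_⟩
            have h6 := h5 j
            rw [ha.2] at h6
            rw [← h6]
            exact Nat.le_pow_clog (by norm_num) _
          · intro a ha b hb hab
            rw [Finset.mem_coe, Finset.mem_filter] at ha hb
            have ea := (hc a ha.1).2.1
            have eb := (hc b hb.1).2.1
            rw [ha.2] at ea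
            rw [hb.2, ← hab] at eb
            rw [ea, eb]
        have h7 : (Fintype.piFinset (fun j : Fin m => Finset.Icc 1 (2 ^ γ.2.2 j))).card =
            ∏ j, 2 ^ γ.2.2 j := by
          rw [Fintype.card_piFinset]
          refine Finset.prod_congr rfl fun j _ => ?_
          rw [Nat.card_Icc, Nat.add_sub_cancel]
        rw [h7] at h3
        exact_mod_cast h3
  calc ((NS S m k N W).card : ℝ) ≤ K * Γ.card := h1
    _ ≤ K * (C * (N : ℝ) ^ ε) := mul_le_mul_of_nonneg_left hΓ hK0
    _ = C * 2 ^ m * (N : ℝ) ^ (1 / (m : ℝ) + ε) * W ^ (-((k : ℝ) / (m : ℝ))) := by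
        rw [hK, Real.rpow_add hN0]
        ring

end Pool.Agent.Helper93.MT
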