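import Pool.Agent.Helper93.MT.Defs

/-!
# MT-1 Classes: dyadic classes of the `m`-full numbers which are not short

Proof (model: the first half of the proof of `collision`, file `Helper91/CPX/Collision.lean`; `clog_pow_le`, `two_pow_clog_le`,
`sunit_count` are public). For `a ∈ NS` (in `Aset`) choose by `rep` (applied to `|a|`, `mem_Aset`) `s a`, `y a` and put
`c a = (decide (0 < a), (s a, fun j => Nat.clog 2 (y a j)))`. `Γ = univ ×ˢ (NS.image s) ×ˢ piFinset (range (clog 2 N + 1))` or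
simply `Γ = (NS ...).image c`; in both cases `card Γ ≤ 2 * (C1 N^(ε/2)) * (C3 N^(ε/2))` (`s a ≤ N` is composed of primes of `S`;
`y a j ≤ N`; for `Γ = image` use the inclusion in the product).
Size: let `Z j = 2 ^ clog 2 (y j) ≤ 2 y j`. Since `a` is NOT short, the representation `s, y` has `∏_{k ≤ j} y_j > W`. Now
`(∏ y_j)^m * (∏_{k ≤ j} y_j)^k ≤ ∏ y_j^(m+j) ≤ |a| ≤ N` (for `k ≤ j`: `y_j^(m+j) ≥ y_j^m y_j^k`), so
`(∏ y_j)^m W^k ≤ N`, `∏ y_j ≤ N^(1/m) W^(-k/m)` and `∏ Z_j ≤ 2^m ∏ y_j`.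
-/

set_option autoImplicit false

open Pool.Agent.Helper87.Camp Pool.Agent.Helper91.CPX Pool.Agent.Helper10

namespace Pool.Agent.Helper93.MT

private theorem size_bound {m k : ℕ} (hm : 1 ≤ m) {N : ℕ} {W : ℝ} (hW : 1 ≤ W) (s : ℕ)
    (y : Fin m → ℕ) (hs : 0 < s) (hy : ∀ j, 0 < y j)
    (hN : s * ∏ j, y j ^ (m + (j : ℕ)) ≤ N)
    (hR : W < ((∏ j ∈ Finset.univ.filter (fun j : Fin m => k ≤ (j : ℕ)), y j : ℕ) : ℝ)) :
    ((∏ j, 2 ^ Nat.clog 2 (y j) : ℕ) : ℝ) ≤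
      2 ^ m * (N : ℝ) ^ (1 / (m : ℝ)) * W ^ (-((k : ℝ) / (m : ℝ))) := by
  classical
  have hm0 : (0 : ℝ) < m := by exact_mod_cast hm
  have hW0 : (0 : ℝ) < W := by linarith
  obtain ⟨R, hRd⟩ : ∃ R : ℕ, R = ∏ j ∈ Finset.univ.filter (fun j : Fin m => k ≤ (j : ℕ)), y j :=
    ⟨_, rfl⟩
  rw [← hRd] at hR
  have hRk : R ^ k ≤ ∏ j : Fin m, y j ^ (j : ℕ) := by
    rw [hRd, ← Finset.prod_pow, Finset.prod_filter]
    apply Finset.prod_le_prod'
    intro j _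
    split_ifs with h
    · exact Nat.pow_le_pow_right (hy j) h
    · exact Nat.one_le_pow _ _ (hy j)
  have hPR : (∏ j, y j) ^ m * R ^ k ≤ N := by
    calc (∏ j, y j) ^ m * R ^ k ≤ (∏ j, y j ^ m) * ∏ j : Fin m, y j ^ (j : ℕ) := by
          rw [Finset.prod_pow]
          exact Nat.mul_le_mul_left _ hRk
      _ = ∏ j, y j ^ (m + (j : ℕ)) := by
          rw [← Finset.prod_mul_distrib]
          apply Finset.prod_congr rfl
          intro j _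
          rw [pow_add]
      _ ≤ s * ∏ j, y j ^ (m + (j : ℕ)) := Nat.le_mul_of_pos_left _ hs
      _ ≤ N := hN
  have hPR' : ((∏ j, y j : ℕ) : ℝ) ^ m * W ^ k ≤ N := by
    calc ((∏ j, y j : ℕ) : ℝ) ^ m * W ^ k ≤ ((∏ j, y j : ℕ) : ℝ) ^ m * (R : ℝ) ^ k :=
          mul_le_mul_of_nonneg_left (pow_le_pow_left₀ hW0.le hR.le k) (by positivity)
      _ ≤ N := by exact_mod_cast hPR
  have hZP : ∏ j, 2 ^ Nat.clog 2 (y j) ≤ 2 ^ m * ∏ j, y j := by
    have h1 : ∏ j, 2 ^ Nat.clog 2 (y j) ≤ ∏ j : Fin m, (2 * y j) := by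
      apply Finset.prod_le_prod'
      intro j _
      exact two_pow_clog_le _ (hy j)
    rw [Finset.prod_mul_distrib] at h1
    simpa using h1
  have hP : ((∏ j, y j : ℕ) : ℝ) ≤ (N : ℝ) ^ (1 / (m : ℝ)) * W ^ (-((k : ℝ) / (m : ℝ))) := by
    have h1 : ((∏ j, y j : ℕ) : ℝ) ^ m ≤ (N : ℝ) * W ^ (-(k : ℝ)) := by
      rw [Real.rpow_neg hW0.le, Real.rpow_natCast, ← div_eq_mul_inv, le_div_iff₀ (by positivity)]
      exact hPR'
    calc ((∏ j, y j : ℕ) : ℝ) = (((∏ j, y j : ℕ) : ℝ) ^ m) ^ ((m : ℝ)⁻¹) :=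
          (Real.pow_rpow_inv_natCast (by positivity) (by omega)).symm
      _ ≤ ((N : ℝ) * W ^ (-(k : ℝ))) ^ ((m : ℝ)⁻¹) :=
          Real.rpow_le_rpow (by positivity) h1 (by positivity)
      _ = (N : ℝ) ^ (1 / (m : ℝ)) * W ^ (-((k : ℝ) / (m : ℝ))) := by
          rw [Real.mul_rpow (by positivity) (by positivity), ← Real.rpow_mul hW0.le, one_div]
          congr 2
          ring
  calc ((∏ j, 2 ^ Nat.clog 2 (y j) : ℕ) : ℝ) ≤ 2 ^ m * ((∏ j, y j : ℕ) : ℝ) := by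
        exact_mod_cast hZP
    _ ≤ 2 ^ m * ((N : ℝ) ^ (1 / (m : ℝ)) * W ^ (-((k : ℝ) / (m : ℝ)))) :=
        mul_le_mul_of_nonneg_left hP (by positivity)
    _ = _ := by ring

theorem classes (S : Finset ℕ) (m k : ℕ) (hm : 1 ≤ m) (ε : ℝ) (hε : 0 < ε) :
    ∃ C : ℝ, 1 ≤ C ∧ ∀ N : ℕ, 1 ≤ N → ∀ W : ℝ, 1 ≤ W →
      ∃ (c : ℤ → Bool × (ℕ × (Fin m → ℕ))) (y : ℤ → Fin m → ℕ)
        (Γ : Finset (Bool × (ℕ × (Fin m → ℕ)))),
        (Γ.card : ℝ) ≤ C * (N : ℝ) ^ ε ∧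
        ∀ a ∈ NS S m k N W, c a ∈ Γ ∧
          a = (if (c a).1 = true then 1 else -1) *
            (((c a).2.1 * ∏ j, y a j ^ (m + (j : ℕ)) : ℕ) : ℤ) ∧
          (∀ j, 0 < y a j) ∧ (∀ j, Nat.clog 2 (y a j) = (c a).2.2 j) ∧
          ((∏ j, 2 ^ (c a).2.2 j : ℕ) : ℝ) ≤
            2 ^ m * (N : ℝ) ^ (1 / (m : ℝ)) * W ^ (-((k : ℝ) / (m : ℝ))) := by
  classical
  have hm0 : (0 : ℝ) < m := by exact_mod_cast hm
  obtain ⟨C1, hC1, hF⟩ := sunit_count S (ε / 2) (by positivity)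
  obtain ⟨C3, hC3, hlog⟩ := clog_pow_le m hm (ε / 2) (by positivity)
  refine ⟨2 * (C1 * C3), by nlinarith, fun N hN W hW => ?_⟩
  have hN1 : (1 : ℝ) ≤ N := by exact_mod_cast hN
  have hN0 : (0 : ℝ) < N := by linarith
  have hrep : ∀ a : ℤ, ∃ (s : ℕ) (y : Fin m → ℕ), a ∈ Aset S m N →
      (0 < s ∧ (∀ p : ℕ, p.Prime → p ∣ s → p ∈ S) ∧ (∀ j, 0 < y j) ∧
        a.natAbs = s * ∏ j, y j ^ (m + (j : ℕ))) := by
    intro a
    by_cases ha : a ∈ Aset S m N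
    · have h1 := mem_Aset.mp ha
      obtain ⟨s, y, h2⟩ := rep S m hm a.natAbs (Int.natAbs_pos.mpr h1.1) h1.2.2
      exact ⟨s, y, fun _ => h2⟩
    · exact ⟨0, fun _ => 0, fun h => absurd h ha⟩
  choose s y hsy using hrep
  obtain ⟨A, hA⟩ : ∃ A : Finset ℤ, A = NS S m k N W := ⟨_, rfl⟩
  have hAm : ∀ a ∈ A, a ∈ Aset S m N := by
    intro a ha
    rw [hA] at ha
    exact (mem_NS.mp ha).1
  have hyN : ∀ a ∈ A, ∀ j, y a j ≤ N := by
    intro a ha j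
    obtain ⟨h1, -, h3, h4⟩ := hsy a (hAm a ha)
    have h5 := (mem_Aset.mp (hAm a ha)).2.1
    have h6 : y a j ∣ a.natAbs := by
      rw [h4]
      refine Dvd.dvd.mul_left ?_ _
      exact (dvd_pow_self _ (by omega)).trans
        (Finset.dvd_prod_of_mem (fun j => y a j ^ (m + (j : ℕ))) (Finset.mem_univ j))
    exact (Nat.le_of_dvd (Int.natAbs_pos.mpr (mem_Aset.mp (hAm a ha)).1) h6).trans h5
  have hsN : ∀ a ∈ A, s a ≤ N := by
    intro a ha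
    obtain ⟨h1, -, h3, h4⟩ := hsy a (hAm a ha)
    have h5 := (mem_Aset.mp (hAm a ha)).2.1
    have h6 : s a ∣ a.natAbs := by
      rw [h4]
      exact dvd_mul_right _ _
    exact (Nat.le_of_dvd (Int.natAbs_pos.mpr (mem_Aset.mp (hAm a ha)).1) h6).trans h5
  obtain ⟨c, hc⟩ : ∃ c : ℤ → Bool × (ℕ × (Fin m → ℕ)), c = fun a =>
      (decide (0 < a), (s a, fun j => Nat.clog 2 (y a j))) := ⟨_, rfl⟩
  obtain ⟨F, hFd⟩ : ∃ F : Finset ℕ, F = A.image s := ⟨_, rfl⟩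
  obtain ⟨Q, hQ⟩ : ∃ Q : Finset (Bool × (ℕ × (Fin m → ℕ))), Q = Finset.univ ×ˢ (F ×ˢ
      Fintype.piFinset (fun _ : Fin m => Finset.range (Nat.clog 2 N + 1))) := ⟨_, rfl⟩
  have hFc : (F.card : ℝ) ≤ C1 * (N : ℝ) ^ (ε / 2) := by
    apply hF N hN F
    intro v hv
    rw [hFd] at hv
    obtain ⟨a, ha, rfl⟩ := Finset.mem_image.mp hv
    obtain ⟨h1, h2, h3, h4⟩ := hsy a (hAm a ha)
    exact ⟨h1, hsN a ha, h2⟩
  have hQc : (Q.card : ℝ) ≤ 2 * ((C1 * (N : ℝ) ^ (ε / 2)) * (C3 * (N : ℝ) ^ (ε / 2))) := by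
    have h1 : Q.card = 2 * (F.card * (Nat.clog 2 N + 1) ^ m) := by
      rw [hQ, Finset.card_product, Finset.card_product, Fintype.card_piFinset]
      simp
    rw [h1]
    push_cast
    have h2 := hlog N hN
    push_cast at h2
    have h3 : (F.card : ℝ) * ((Nat.clog 2 N : ℝ) + 1) ^ m ≤
        (C1 * (N : ℝ) ^ (ε / 2)) * (C3 * (N : ℝ) ^ (ε / 2)) :=
      mul_le_mul hFc h2 (by positivity) (by positivity)
    linarith
  refine ⟨c, y, Q, ?_, ?_⟩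
  · calc (Q.card : ℝ) ≤ 2 * ((C1 * (N : ℝ) ^ (ε / 2)) * (C3 * (N : ℝ) ^ (ε / 2))) := hQc
      _ = 2 * (C1 * C3) * ((N : ℝ) ^ (ε / 2) * (N : ℝ) ^ (ε / 2)) := by ring
      _ = 2 * (C1 * C3) * (N : ℝ) ^ ε := by
          rw [← Real.rpow_add hN0]
          congr 2
          ring
  · intro a ha
    rw [← hA] at ha
    obtain ⟨h1, h2, h3, h4⟩ := hsy a (hAm a ha)
    have h5 := mem_Aset.mp (hAm a ha)
    have hns : ¬ Short S m k W a := by
      rw [hA] at ha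
      exact (mem_NS.mp ha).2
    refine ⟨?_, ?_, h3, fun j => by rw [hc], ?_⟩
    · rw [hQ, hc, Finset.mem_product, Finset.mem_product, Fintype.mem_piFinset]
      refine ⟨Finset.mem_univ _, ?_, ?_⟩
      · rw [hFd]
        exact Finset.mem_image_of_mem _ ha
      · intro j
        rw [Finset.mem_range]
        have h1 := Nat.clog_mono_right 2 (hyN a ha j)
        exact Nat.lt_succ_of_le h1
    · rw [hc]
      simp only
      rw [← h4]
      by_cases hpos : 0 < a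
      · rw [if_pos (decide_eq_true hpos)]
        omega
      · rw [if_neg (by simpa using hpos)]
        omega
    · rw [hc]
      apply size_bound hm hW (s a) (y a) h1 h3
      · rw [← h4]
        exact h5.2.1
      · by_contra hcon
        exact hns ⟨s a, y a, h1, h2, h3, h4, not_lt.mp hcon⟩

end Pool.Agent.Helper93.MT
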