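import Pool.Agent.Helper93.MT.Classes

/-!
# MT-3 CollNS: collisions modulo `q` of the `m`-full numbers which are not short

Proof. Exactly the second half of the proof of `collision` (file `Helper91/CPX/Collision.lean`), with the classes of `classes`
(parameter `ε/2`) and their better size bound. `A = (NS ..).filter (IsCoprime a q)`. `coll_split A _ c Γ _ K` reduces to the bound
`coll (A.filter (c a = γ)) ≤ K` for `γ ∈ Γ`, `(card Γ)^2 ≤ (C N^(ε/2))^2 = C^2 N^ε`. For a class (not empty) let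
`Z j = 2 ^ γ.2.2 j`: `y a j ≤ Z j ≤ 2 * y a j`, `(∏ Z)^4 ≤ q` because `((∏ Z)^4)^m ≤ 2^(4 m^2) ((∏ y)^m)^4 ≤ 2^(4 m^2) N^4 ≤ q^m`
(as in `class_bound`, which is public and whose proof can be copied; only its last step is different), `coll_le_of_map` to
`piFinset (fun j => Yq q (Z j))` and `box_coll`: `coll ≤ (∏ Z) * B^(2 m m)`, `B = ⌊C2 q^(ε/(2 m m))⌋₊`, `B^(2 m m) ≤ C2' q^ε`
(`tau_rpow`), and `∏ Z ≤ 2^m N^(1/m) W^(-k/m)` by `classes`.
-/

set_option autoImplicit false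

open Pool.Agent.Helper87.Camp Pool.Agent.Helper91.CPX Pool.Agent.Helper10

namespace Pool.Agent.Helper93.MT

/-- The bound for one class (copy of `class_bound` with the bound `X` for the size). -/
private lemma class_bound_ns (m : ℕ) (hm : 1 ≤ m) (N q : ℕ) [NeZero q]
    (hN : 1 ≤ N)
    (hq : 2 ^ (4 * m ^ 2) * N ^ 4 ≤ q ^ m) (B : ℕ) (hB : ∀ w : ℕ, 1 ≤ w → w ≤ q → tau w ≤ B)
    (T : Finset ℤ) (s0 : ℕ) (sg : ℤ) (hsg : sg = 1 ∨ sg = -1) (i : Fin m → ℕ)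
    (y : ℤ → Fin m → ℕ)
    (hT : ∀ a ∈ T, IsCoprime a (q : ℤ) ∧ a.natAbs ≤ N ∧ a ≠ 0 ∧
      a = sg * ((s0 * ∏ j, y a j ^ (m + (j : ℕ)) : ℕ) : ℤ) ∧ (∀ j, 0 < y a j) ∧
      ∀ j, Nat.clog 2 (y a j) = i j)
    (X : ℝ) (hX0 : 0 ≤ X) (hX : T.Nonempty → ((∏ j, 2 ^ i j : ℕ) : ℝ) ≤ X) :
    (coll T (fun a => (a : ZMod q)) : ℝ) ≤ X * (B : ℝ) ^ (2 * m * m) := by
  classical
  rcases T.eq_empty_or_nonempty with hTe | ⟨a0, ha0⟩
  · subst hTe
    have h1 : coll (∅ : Finset ℤ) (fun a => (a : ZMod q)) = 0 := by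
      unfold coll
      simp
    rw [h1]
    push_cast
    positivity
  have hm0 : (0 : ℝ) < m := by exact_mod_cast hm
  obtain ⟨Z, hZdef⟩ : ∃ Z : Fin m → ℕ, Z = fun j => 2 ^ i j := ⟨_, rfl⟩
  have hZj : ∀ j, Z j = 2 ^ i j := fun j => by rw [hZdef]
  have hZ1 : ∀ j, 1 ≤ Z j := fun j => by rw [hZj]; exact Nat.one_le_two_pow
  have hnat : ∀ a ∈ T, a.natAbs = s0 * ∏ j, y a j ^ (m + (j : ℕ)) := by
    intro a ha
    obtain ⟨-, -, -, h, -, -⟩ := hT a ha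
    conv_lhs => rw [h]
    rw [Int.natAbs_mul, Int.natAbs_natCast]
    rcases hsg with h1 | h1 <;> rw [h1] <;> simp
  have hs0 : 0 < s0 := by
    rcases Nat.eq_zero_or_pos s0 with h | h
    · have h1 := hnat a0 ha0
      rw [h, zero_mul] at h1
      exact absurd (Int.natAbs_eq_zero.mp h1) (hT a0 ha0).2.2.1
    · exact h
  -- the product of the y
  have hP : (∏ j, y a0 j) ^ m ≤ N := by
    have h1 : (∏ j, y a0 j) ^ m ≤ ∏ j, y a0 j ^ (m + (j : ℕ)) := by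
      rw [← Finset.prod_pow]
      apply Finset.prod_le_prod'
      intro j _
      exact Nat.pow_le_pow_right ((hT a0 ha0).2.2.2.2.1 j) (Nat.le_add_right _ _)
    have h2 : ∏ j, y a0 j ^ (m + (j : ℕ)) ≤ s0 * ∏ j, y a0 j ^ (m + (j : ℕ)) :=
      Nat.le_mul_of_pos_left _ hs0
    exact h1.trans (h2.trans ((hnat a0 ha0) ▸ (hT a0 ha0).2.1))
  have hZP : ∏ j, Z j ≤ 2 ^ m * ∏ j, y a0 j := by
    have h1 : ∏ j, Z j ≤ ∏ j : Fin m, (2 * y a0 j) := by
      apply Finset.prod_le_prod'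
      intro j _
      rw [hZj, ← (hT a0 ha0).2.2.2.2.2 j]
      exact two_pow_clog_le _ ((hT a0 ha0).2.2.2.2.1 j)
    rw [Finset.prod_mul_distrib] at h1
    simpa using h1
  have hZ : (∏ j, Z j) ^ 4 ≤ q := by
    have h1 : ((∏ j, Z j) ^ 4) ^ m ≤ q ^ m := by
      calc ((∏ j, Z j) ^ 4) ^ m ≤ ((2 ^ m * ∏ j, y a0 j) ^ 4) ^ m :=
            Nat.pow_le_pow_left (Nat.pow_le_pow_left hZP 4) m
        _ = 2 ^ (4 * m ^ 2) * ((∏ j, y a0 j) ^ m) ^ 4 := by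
            rw [mul_pow, mul_pow, ← pow_mul, ← pow_mul, ← pow_mul, ← pow_mul, mul_comm 4 m]
            congr 2
            ring
        _ ≤ 2 ^ (4 * m ^ 2) * N ^ 4 := Nat.mul_le_mul_left _ (Nat.pow_le_pow_left hP 4)
        _ ≤ q ^ m := hq
    exact (Nat.pow_le_pow_iff_left (by omega)).mp h1
  have hZR : ((∏ j, Z j : ℕ) : ℝ) ≤ X := by
    rw [hZdef]
    exact hX ⟨a0, ha0⟩
  have hcopr : ∀ a ∈ T, Nat.Coprime a.natAbs q := by
    intro a ha
    have h1 := Int.isCoprime_iff_gcd_eq_one.mp (hT a ha).1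
    rw [Int.gcd, Int.natAbs_natCast] at h1
    exact h1
  have hcopy : ∀ a ∈ T, ∀ j, Nat.Coprime (y a j) q := by
    intro a ha j
    refine Nat.Coprime.coprime_dvd_left ?_ (hcopr a ha)
    rw [hnat a ha]
    refine Dvd.dvd.mul_left ?_ _
    exact (dvd_pow_self _ (by omega)).trans
      (Finset.dvd_prod_of_mem (fun j => y a j ^ (m + (j : ℕ))) (Finset.mem_univ j))
  have hcops : Nat.Coprime s0 q := by
    refine Nat.Coprime.coprime_dvd_left ?_ (hcopr a0 ha0)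
    rw [hnat a0 ha0]
    exact dvd_mul_right _ _
  have hcoll : coll T (fun a => (a : ZMod q)) ≤
      coll (Fintype.piFinset (fun j => Yq q (Z j)))
        (fun y => ∏ j, uq q (y j) ^ (m + (j : ℕ))) := by
    apply coll_le_of_map T _ y
    · intro a ha
      rw [Fintype.mem_piFinset]
      intro j
      unfold Yq
      rw [Finset.mem_filter, Finset.mem_Icc]
      refine ⟨⟨(hT a ha).2.2.2.2.1 j, ?_⟩, hcopy a ha j⟩
      rw [hZj, ← (hT a ha).2.2.2.2.2 j]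
      exact Nat.le_pow_clog (by norm_num) _
    · intro a ha a' ha' h
      have ha1 : a ∈ T := by exact_mod_cast ha
      have ha2 : a' ∈ T := by exact_mod_cast ha'
      rw [(hT a ha1).2.2.2.1, (hT a' ha2).2.2.2.1, h]
    · intro a ha a' ha' h
      have h1 : ∀ a ∈ T, (a : ZMod q) = (sg : ZMod q) * ((s0 : ZMod q) *
          ((∏ j, uq q (y a j) ^ (m + (j : ℕ)) : (ZMod q)ˣ) : ZMod q)) := by
        intro a ha
        have h2 : ((∏ j, uq q (y a j) ^ (m + (j : ℕ)) : (ZMod q)ˣ) : ZMod q) =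
            ∏ j, (y a j : ZMod q) ^ (m + (j : ℕ)) := by
          rw [Units.coe_prod]
          apply Finset.prod_congr rfl
          intro j _
          rw [Units.val_pow_eq_pow_val, uq_val q _ (hcopy a ha j)]
        rw [h2]
        conv_lhs => rw [(hT a ha).2.2.2.1]
        push_cast
        ring
      have hsu : IsUnit ((sg : ZMod q) * (s0 : ZMod q)) := by
        apply IsUnit.mul
        · rcases hsg with h1 | h1 <;> rw [h1] <;> simp
        · exact (ZMod.isUnit_iff_coprime s0 q).mpr hcops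
      apply Units.ext
      have h2 := h1 a ha
      have h3 := h1 a' ha'
      rw [h2, h3, ← mul_assoc, ← mul_assoc] at h
      exact hsu.mul_left_cancel h
  calc (coll T (fun a => (a : ZMod q)) : ℝ) ≤ (coll (Fintype.piFinset (fun j => Yq q (Z j)))
        (fun y => ∏ j, uq q (y j) ^ (m + (j : ℕ))) : ℝ) := by exact_mod_cast hcoll
    _ ≤ ((∏ j, Z j : ℕ) : ℝ) * (B : ℝ) ^ (2 * m * m) := box_coll q m B hm Z hZ1 hZ hB
    _ ≤ X * (B : ℝ) ^ (2 * m * m) := mul_le_mul_of_nonneg_right hZR (by positivity)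

theorem coll_ns (S : Finset ℕ) (m k : ℕ) (hm : 1 ≤ m) (ε : ℝ) (hε : 0 < ε) :
    ∃ C : ℝ, 1 ≤ C ∧ ∀ N : ℕ, 1 ≤ N → ∀ W : ℝ, 1 ≤ W → ∀ q : ℕ, 1 ≤ q →
      2 ^ (4 * m ^ 2) * N ^ 4 ≤ q ^ m →
      (coll ((NS S m k N W).filter (fun a => IsCoprime a (q : ℤ))) (fun a => (a : ZMod q)) : ℝ) ≤
        C * (q : ℝ) ^ ε * (N : ℝ) ^ (1 / (m : ℝ) + ε) * W ^ (-((k : ℝ) / (m : ℝ))) := by
  classical
  have hm0 : (0 : ℝ) < m := by exact_mod_cast hm
  obtain ⟨C1, hC1, hcl⟩ := classes S m k hm (ε / 2) (by positivity)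
  obtain ⟨C2, hC2, htau⟩ := tau_rpow (ε / (2 * m * m)) (by positivity)
  refine ⟨C1 ^ 2 * (2 ^ m * C2 ^ (2 * m * m)), ?_, fun N hN W hW q hq hqm => ?_⟩
  · have h2 : (1 : ℝ) ≤ C1 ^ 2 := one_le_pow₀ hC1
    have h3 : (1 : ℝ) ≤ 2 ^ m := one_le_pow₀ (by norm_num)
    have h4 : (1 : ℝ) ≤ C2 ^ (2 * m * m) := one_le_pow₀ hC2
    exact one_le_mul_of_one_le_of_one_le h2 (one_le_mul_of_one_le_of_one_le h3 h4)
  have hqne : NeZero q := ⟨by omega⟩
  have hq1 : (1 : ℝ) ≤ q := by exact_mod_cast hq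
  have hN0 : (0 : ℝ) < N := by exact_mod_cast hN
  have hq0 : (0 : ℝ) < q := by linarith
  have hW0 : (0 : ℝ) < W := by linarith
  obtain ⟨c, y, Γ, hΓ, hcy⟩ := hcl N hN W hW
  obtain ⟨A, hA⟩ : ∃ A : Finset ℤ, A = (NS S m k N W).filter (fun a => IsCoprime a (q : ℤ)) :=
    ⟨_, rfl⟩
  have hAm : ∀ a ∈ A, a ∈ NS S m k N W ∧ IsCoprime a (q : ℤ) := by
    intro a ha
    rw [hA] at ha
    exact Finset.mem_filter.mp ha
  obtain ⟨B, hBd⟩ : ∃ B : ℕ, B = ⌊C2 * (q : ℝ) ^ (ε / (2 * m * m))⌋₊ := ⟨_, rfl⟩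
  have hB : ∀ w : ℕ, 1 ≤ w → w ≤ q → tau w ≤ B := by
    intro w hw hwq
    rw [hBd]
    apply Nat.le_floor
    refine (htau w (by omega)).trans ?_
    apply mul_le_mul_of_nonneg_left _ (by linarith)
    apply Real.rpow_le_rpow (by positivity) _ (by positivity)
    exact_mod_cast hwq
  have hBR : (B : ℝ) ^ (2 * m * m) ≤ C2 ^ (2 * m * m) * (q : ℝ) ^ ε := by
    have h1 : (B : ℝ) ≤ C2 * (q : ℝ) ^ (ε / (2 * m * m)) := by
      rw [hBd]
      exact Nat.floor_le (by positivity)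
    calc (B : ℝ) ^ (2 * m * m) ≤ (C2 * (q : ℝ) ^ (ε / (2 * m * m))) ^ (2 * m * m) :=
          pow_le_pow_left₀ (by positivity) h1 _
      _ = C2 ^ (2 * m * m) * (q : ℝ) ^ ε := by
          rw [mul_pow, ← Real.rpow_natCast ((q : ℝ) ^ (ε / (2 * m * m))) (2 * m * m),
            ← Real.rpow_mul hq0.le]
          congr 2
          push_cast
          field_simp
  obtain ⟨X, hX⟩ : ∃ X : ℝ, X = 2 ^ m * (N : ℝ) ^ (1 / (m : ℝ)) * W ^ (-((k : ℝ) / (m : ℝ))) :=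
    ⟨_, rfl⟩
  have hX0 : 0 ≤ X := by rw [hX]; positivity
  have hsplit := coll_split A (fun a => (a : ZMod q)) c Γ (fun a ha => (hcy a (hAm a ha).1).1)
    (X * (B : ℝ) ^ (2 * m * m)) (by positivity) (by
    intro γ _
    apply class_bound_ns m hm N q hN hqm B hB (A.filter (fun a => c a = γ)) γ.2.1
      (if γ.1 = true then 1 else -1) (by split_ifs <;> simp) γ.2.2 y
    · intro a ha
      obtain ⟨haA, hac⟩ := Finset.mem_filter.mp ha
      obtain ⟨-, h2, h3, h4, -⟩ := hcy a (hAm a haA).1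
      have h5 := mem_Aset.mp (mem_NS.mp (hAm a haA).1).1
      rw [hac] at h2 h4
      exact ⟨(hAm a haA).2, h5.2.1, h5.1, h2, h3, h4⟩
    · exact hX0
    · rintro ⟨a, ha⟩
      obtain ⟨haA, hac⟩ := Finset.mem_filter.mp ha
      obtain ⟨-, -, -, -, h5⟩ := hcy a (hAm a haA).1
      rw [hac] at h5
      rw [hX]
      exact h5)
  rw [← hA]
  refine hsplit.trans ?_
  have hNp2 : (N : ℝ) ^ (ε / 2) * (N : ℝ) ^ (ε / 2) = (N : ℝ) ^ ε := by
    rw [← Real.rpow_add hN0]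
    congr 1
    ring
  calc (Γ.card : ℝ) ^ 2 * (X * (B : ℝ) ^ (2 * m * m))
      ≤ (C1 * (N : ℝ) ^ (ε / 2)) ^ 2 * (X * (C2 ^ (2 * m * m) * (q : ℝ) ^ ε)) := by
        apply mul_le_mul _ (mul_le_mul_of_nonneg_left hBR hX0) (by positivity) (by positivity)
        exact pow_le_pow_left₀ (by positivity) hΓ 2
    _ = C1 ^ 2 * (2 ^ m * C2 ^ (2 * m * m)) * (q : ℝ) ^ ε *
        ((N : ℝ) ^ (1 / (m : ℝ)) * ((N : ℝ) ^ (ε / 2) * (N : ℝ) ^ (ε / 2))) *
          W ^ (-((k : ℝ) / (m : ℝ))) := by rw [hX]; ring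
    _ = C1 ^ 2 * (2 ^ m * C2 ^ (2 * m * m)) * (q : ℝ) ^ ε *
        (N : ℝ) ^ (1 / (m : ℝ) + ε) * W ^ (-((k : ℝ) / (m : ℝ))) := by
        rw [hNp2, Real.rpow_add hN0]

end Pool.Agent.Helper93.MT
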