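import Pool.Agent.Helper91.CPX.CollSplit

/-!
# MT-4 Cross: solutions of `a + b = k mod q` in two sets (Cauchy-Schwarz)

Proof. With `A(r) = #{a ∈ A : a = r}`, `B(r) = #{b ∈ B : b = r}` in `ZMod q`, the number of pairs is `∑_r A(r) B(k - r)`
(see the proof of `pair_mod` in `Helper91/CPX/CollSplit.lean`), so its square is at most `∑ A(r)^2 ∑ B(k - r)^2`
(`Finset.sum_mul_sq_le_sq_mul_sq` or `inner_mul_le_norm_mul_norm`), and `∑_r A(r)^2 = coll A`, `∑_r B(k-r)^2 = coll B` by
`coll_eq_sum_sq` (with `V = univ`) and the bijection `r ↦ k - r`.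
-/

set_option autoImplicit false

open Pool.Agent.Helper91.CPX

namespace Pool.Agent.Helper93.MT

theorem cross (q : ℕ) [NeZero q] (A B : Finset ℤ) (k : ℤ) :
    ((A ×ˢ B).filter (fun p => (q : ℤ) ∣ p.1 + p.2 - k)).card ^ 2 ≤
      coll A (fun a => (a : ZMod q)) * coll B (fun a => (a : ZMod q)) := by
  classical
  have h1 : ((A ×ˢ B).filter (fun p => (q : ℤ) ∣ p.1 + p.2 - k)).card =
      ∑ r : ZMod q, (A.filter (fun a : ℤ => (a : ZMod q) = r)).card *
        (B.filter (fun a : ℤ => (a : ZMod q) = (k : ZMod q) - r)).card := by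
    rw [Finset.card_eq_sum_card_fiberwise (f := fun p : ℤ × ℤ => (p.1 : ZMod q)) (t := Finset.univ)]
    · refine Finset.sum_congr rfl fun r _ => ?_
      rw [← Finset.card_product]
      congr 1
      ext ⟨x, y⟩
      simp only [Finset.mem_filter, Finset.mem_product]
      have h2 : (q : ℤ) ∣ x + y - k ↔ (x : ZMod q) + y = k := by
        rw [← ZMod.intCast_zmod_eq_zero_iff_dvd]
        push_cast
        rw [sub_eq_zero]
      rw [h2]
      constructor
      · rintro ⟨⟨⟨hx, hy⟩, h3⟩, h4⟩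
        refine ⟨⟨hx, h4⟩, hy, ?_⟩
        rw [← h4, ← h3]; ring
      · rintro ⟨⟨hx, h4⟩, hy, h5⟩
        refine ⟨⟨⟨hx, hy⟩, ?_⟩, h4⟩
        rw [h4, h5]; ring
    · intro p _
      exact Finset.mem_coe.2 (Finset.mem_univ _)
  rw [h1, coll_eq_sum_sq A (fun a => (a : ZMod q)) Finset.univ (fun a _ => Finset.mem_univ _),
    coll_eq_sum_sq B (fun a => (a : ZMod q)) Finset.univ (fun a _ => Finset.mem_univ _)]
  have h2 : ∑ r : ZMod q, (B.filter (fun a : ℤ => (a : ZMod q) = (k : ZMod q) - r)).card ^ 2 =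
      ∑ r : ZMod q, (B.filter (fun a : ℤ => (a : ZMod q) = r)).card ^ 2 := by
    exact Fintype.sum_equiv (Equiv.subLeft (k : ZMod q)) _ _ (fun r => by rw [Equiv.subLeft_apply])
  rw [← h2]
  exact Finset.sum_mul_sq_le_sq_mul_sq _ _ _

end Pool.Agent.Helper93.MT
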