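import Pool.Agent.Helper91.CPX.Collision
import Pool.Agent.Helper91.CPX.AsetCount
import Pool.Agent.Helper91.CPX.TwoIndices

/-!
# Project MT (MP_464c42_nt), most `m`-full numbers: definitions

* `Short S m k W a`: `a = ± s ∏_{j < m} y_j ^ (m + j)` with a positive integer `s` composed of primes of `S`, positive
  integers `y_j` and `∏_{k ≤ j < m} y_j ≤ W`.
* `NS S m k N W`: the `m`-full integers (outside `S`) of absolute value at most `N` which are not short.
-/

set_option autoImplicit false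

open Pool.Agent.Helper87.Camp Pool.Agent.Helper91.CPX

namespace Pool.Agent.Helper93.MT

/-- `a = ± s ∏ y_j ^ (m + j)` with an `S`-unit `s` and `∏_{k ≤ j} y_j ≤ W`. -/
def Short (S : Finset ℕ) (m k : ℕ) (W : ℝ) (a : ℤ) : Prop :=
  ∃ (s : ℕ) (y : Fin m → ℕ), 0 < s ∧ (∀ p : ℕ, p.Prime → p ∣ s → p ∈ S) ∧ (∀ j, 0 < y j) ∧
    a.natAbs = s * ∏ j, y j ^ (m + (j : ℕ)) ∧
    ((∏ j ∈ Finset.univ.filter (fun j : Fin m => k ≤ (j : ℕ)), y j : ℕ) : ℝ) ≤ W

open Classical in
/-- The `m`-full integers up to `N` which are not short. -/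
noncomputable def NS (S : Finset ℕ) (m k N : ℕ) (W : ℝ) : Finset ℤ :=
  (Aset S m N).filter (fun a => ¬ Short S m k W a)

open Classical in
lemma mem_NS {S : Finset ℕ} {m k N : ℕ} {W : ℝ} {a : ℤ} :
    a ∈ NS S m k N W ↔ a ∈ Aset S m N ∧ ¬ Short S m k W a := by
  unfold NS
  rw [Finset.mem_filter]

end Pool.Agent.Helper93.MT
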