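import Pool.Agent.Helper91.CPX.AsetCount
import Pool.Agent.Helper7.MTR.Rough

/-!
# MT-7 Rough: few `m`-full numbers have no medium prime factor (block of helper7)
-/

set_option autoImplicit false

open Pool.Agent.Helper87.Camp Pool.Agent.Helper91.CPX

namespace Pool.Agent.Helper93.MT

open Classical in
theorem rough_few (η : ℝ) (hη : 0 < η) :
    ∃ h m0 : ℕ, ∀ m : ℕ, m0 ≤ m → ∀ S : Finset ℕ, ∃ M0 : ℕ, ∀ M : ℕ, M0 ≤ M →
      (((Aset S m M).filter (fun c => ∀ p : ℕ, p.Prime →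
        (M : ℝ) ^ (5 / (m : ℝ) ^ 2) < (p : ℝ) → (p : ℝ) ≤ (M : ℝ) ^ ((h : ℝ) / (m : ℝ) ^ 2) →
          ¬ (p : ℤ) ∣ c)).card : ℝ) ≤ η * ((Aset S m M).card : ℝ) := by
  exact Pool.Agent.Helper7.MTR.rough_few η hη

end Pool.Agent.Helper93.MT
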