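import Pool.Agent.Helper93.MT.Bds
import Pool.Agent.Helper7.MTR.Turan
import Pool.Agent.Helper7.MTR.Window

/-!
# MT-12 RoughPow: few `m`-th powers have no medium prime factor

From helper7's `turan_cop` (with `S = ∅`) and `window_sum`.
-/

set_option autoImplicit false

open Pool.Agent.Helper87.Camp Pool.Agent.Helper91.CPX Pool.Agent.Helper7.MTR

namespace Pool.Agent.Helper93.MT

open Classical in
theorem rough_pow (η : ℝ) (hη : 0 < η) :
    ∃ h m0 : ℕ, ∀ m : ℕ, m0 ≤ m → ∀ t : ℕ, 1 ≤ t → ∃ M0 : ℕ, ∀ M : ℕ, M0 ≤ M → ∀ X : ℕ,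
      M < t * (X + 1) ^ m →
      (((Finset.Icc 1 X).filter (fun z => ∀ p : ℕ, p.Prime →
        (M : ℝ) ^ (5 / (m : ℝ) ^ 2) < (p : ℝ) → (p : ℝ) ≤ (M : ℝ) ^ ((h : ℝ) / (m : ℝ) ^ 2) →
          ¬ p ∣ z)).card : ℝ) ≤ η * X := by
  obtain ⟨H, z0, hH, hz0, hwin⟩ := window_sum (max 1 (4 / η))
  refine ⟨5 * H, 8 * (5 * H) + 1, fun m hm t ht => ?_⟩
  obtain ⟨X0, hX0⟩ := turan_cop ∅
  have hm1 : 1 ≤ m := by omega
  have hm0 : (0 : ℝ) < m := by exact_mod_cast hm1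
  have ht0 : (0 : ℝ) < t := by exact_mod_cast ht
  have htR : (1 : ℝ) ≤ t := by exact_mod_cast ht
  obtain ⟨B1, hB1⟩ := ev_le z0 1 0 (5 / (m : ℝ) ^ 2) 1 zero_le_one (by positivity) one_pos
  obtain ⟨B2, hB2⟩ := ev_le 2 1 (1 / (2 * (m : ℝ))) (1 / (m : ℝ)) (1 / (t : ℝ)) zero_le_one
    (by
      rw [div_lt_div_iff₀ (by positivity) hm0]
      linarith) (by positivity)
  obtain ⟨B3, hB3⟩ := ev_le (X0 : ℝ) 1 0 (1 / (2 * (m : ℝ))) 1 zero_le_one (by positivity) one_pos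
  refine ⟨max B1 (max B2 (max B3 1)), fun M hM X hX => ?_⟩
  simp only [max_le_iff] at hM
  obtain ⟨hM1, hM2, hM3, hM4⟩ := hM
  have e1 := hB1 M hM1
  have e2 := hB2 M hM2
  have e3 := hB3 M hM3
  rw [Real.rpow_zero, mul_one, one_mul] at e1 e3
  rw [one_mul] at e2
  have hMR : (1 : ℝ) ≤ M := by exact_mod_cast hM4
  have hMR0 : (0 : ℝ) < M := by linarith
  -- the size of `X`
  have hXbig : (M : ℝ) ^ (1 / (2 * (m : ℝ))) ≤ X := by
    have h1 : (M : ℝ) ≤ t * ((X : ℝ) + 1) ^ m := by exact_mod_cast hX.le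
    have h2 : (M : ℝ) ^ (1 / (m : ℝ)) ≤ (t : ℝ) * ((X : ℝ) + 1) := by
      calc (M : ℝ) ^ (1 / (m : ℝ)) ≤ (t * ((X : ℝ) + 1) ^ m) ^ (1 / (m : ℝ)) :=
            Real.rpow_le_rpow hMR0.le h1 (by positivity)
        _ = (t : ℝ) ^ (1 / (m : ℝ)) * ((X : ℝ) + 1) := by
            rw [Real.mul_rpow ht0.le (by positivity), one_div,
              Real.pow_rpow_inv_natCast (by positivity) (by omega)]
        _ ≤ (t : ℝ) * ((X : ℝ) + 1) := by
            apply mul_le_mul_of_nonneg_right _ (by positivity)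
            calc (t : ℝ) ^ (1 / (m : ℝ)) ≤ (t : ℝ) ^ (1 : ℝ) := by
                  apply Real.rpow_le_rpow_of_exponent_le htR
                  rw [div_le_one hm0]
                  exact_mod_cast hm1
              _ = t := Real.rpow_one _
    have h3 : (1 / (t : ℝ)) * (M : ℝ) ^ (1 / (m : ℝ)) ≤ (X : ℝ) + 1 := by
      rw [one_div, inv_mul_le_iff₀ ht0]
      exact h2
    have h4 : (1 : ℝ) ≤ (M : ℝ) ^ (1 / (2 * (m : ℝ))) := Real.one_le_rpow hMR (by positivity)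
    linarith
  have hXX0 : X0 ≤ X := by
    have h1 : (X0 : ℝ) ≤ X := by linarith
    exact_mod_cast h1
  obtain ⟨z, hz⟩ : ∃ z : ℝ, z = (M : ℝ) ^ (5 / (m : ℝ) ^ 2) := ⟨_, rfl⟩
  have hzH : z ^ H = (M : ℝ) ^ (((5 * H : ℕ) : ℝ) / (m : ℝ) ^ 2) := by
    rw [hz, ← Real.rpow_natCast, ← Real.rpow_mul hMR0.le]
    congr 1
    push_cast
    ring
  have hHm : 8 * (5 * (H : ℝ)) ≤ m := by
    have : 8 * (5 * H) ≤ m := by omega
    exact_mod_cast this
  have hexp : ((5 * H : ℕ) : ℝ) / (m : ℝ) ^ 2 * 4 ≤ 1 / (2 * (m : ℝ)) := by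
    push_cast
    rw [div_mul_eq_mul_div, div_le_div_iff₀ (by positivity) (by positivity)]
    nlinarith
  have hzH4 : (z ^ H) ^ 4 ≤ (M : ℝ) ^ (1 / (2 * (m : ℝ))) := by
    rw [hzH, ← Real.rpow_natCast, ← Real.rpow_mul hMR0.le]
    apply Real.rpow_le_rpow_of_exponent_le hMR
    exact_mod_cast hexp
  obtain ⟨P, hP⟩ : ∃ P : Finset ℕ, P = (Finset.range (X + 1)).filter (fun p : ℕ => p.Prime ∧
      z < (p : ℝ) ∧ (p : ℝ) ≤ z ^ H) := ⟨_, rfl⟩
  have hp4 : ∀ p : ℕ, (p : ℝ) ≤ z ^ H → p ^ 4 ≤ X := by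
    intro p hp
    have h1 : (p : ℝ) ^ 4 ≤ X := (pow_le_pow_left₀ (Nat.cast_nonneg _) hp 4).trans
      (hzH4.trans hXbig)
    exact_mod_cast h1
  have hL := hwin z (by rw [hz]; exact e1) P (by
    intro p hp hp1 hp2
    rw [hP, Finset.mem_filter, Finset.mem_range]
    refine ⟨?_, hp, hp1, hp2⟩
    have h1 := hp4 p hp2
    have h2 : p ≤ p ^ 4 := Nat.le_self_pow (by norm_num) p
    omega)
  have hL1 : 1 ≤ ∑ p ∈ P, 1 / (p : ℝ) := (le_max_left _ _).trans hL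
  have hL2 : 4 / η ≤ ∑ p ∈ P, 1 / (p : ℝ) := (le_max_right _ _).trans hL
  have hmain := hX0 X hXX0 P (by
    intro p hp
    rw [hP, Finset.mem_filter] at hp
    exact ⟨hp.2.1, Finset.notMem_empty p, hp4 p hp.2.2.2⟩) hL1
  have hcard : ((Finset.Icc 1 X).filter (fun z => ∀ p : ℕ, p.Prime →
        (M : ℝ) ^ (5 / (m : ℝ) ^ 2) < (p : ℝ) →
        (p : ℝ) ≤ (M : ℝ) ^ (((5 * H : ℕ) : ℝ) / (m : ℝ) ^ 2) → ¬ p ∣ z)).card ≤
      ((Finset.Icc 1 X).filter (fun x => Cop ∅ x ∧ ∀ p ∈ P, ¬ p ∣ x)).card := by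
    apply Finset.card_le_card
    intro x hx
    rw [Finset.mem_filter] at hx ⊢
    refine ⟨hx.1, ?_, ?_⟩
    · intro p hp
      exact absurd hp (Finset.notMem_empty p)
    · intro p hp
      rw [hP, Finset.mem_filter] at hp
      refine hx.2 p hp.2.1 ?_ ?_
      · rw [← hz]
        exact hp.2.2.1
      · rw [← hzH]
        exact hp.2.2.2
  have hcard2 : ((Finset.Icc 1 X).filter (fun x => Cop ∅ x)).card ≤ X := by
    refine (Finset.card_filter_le _ _).trans ?_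
    rw [Nat.card_Icc]
    omega
  calc _ ≤ (((Finset.Icc 1 X).filter (fun x => Cop ∅ x ∧ ∀ p ∈ P, ¬ p ∣ x)).card : ℝ) := by
        exact_mod_cast hcard
    _ ≤ 4 / (∑ p ∈ P, 1 / (p : ℝ)) * (((Finset.Icc 1 X).filter (fun x => Cop ∅ x)).card : ℝ) :=
        hmain
    _ ≤ η * X := by
        apply mul_le_mul
        · rw [div_le_iff₀ (by linarith)]
          rw [div_le_iff₀ hη] at hL2
          linarith
        · exact_mod_cast hcard2
        · positivity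
        · exact hη.le

end Pool.Agent.Helper93.MT
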