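import Pool.Agent.Helper93.MT.Main
import Pool.Agent.Helper93.MT.Rough
import Pool.Agent.Helper93.MT.RoughPow

/-!
# MT-13 Final: from Campana points to vectors
-/

set_option autoImplicit false

open Pool.Agent.Helper87.Camp Pool.Agent.Helper91.CPX

namespace Pool.Agent.Helper93.MT

variable {n : ℕ}

/-- No sum over a proper nonempty subset of the terms of the relation `∑ᵢ (rel i) ℓᵢ(x) = 0` is
zero. -/
def NonDegenerate (L : Matrix (Fin (n + 2)) (Fin (n + 1)) ℤ) (x : Fin (n + 1) → ℤ) : Prop :=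
  ∀ J : Finset (Fin (n + 2)), J.Nonempty → J ≠ Finset.univ →
    ∑ i ∈ J, rel L i * form L i x ≠ 0

/-- The `n`-tuples of values of the forms `ℓ_{I 0}, …, ℓ_{I (n-1)}` at the vectors of height at
most `H` that represent nondegenerate Campana points. -/
def values (S : Finset ℕ) (L : Matrix (Fin (n + 2)) (Fin (n + 1)) ℤ) (μ : Fin (n + 2) → ℕ∞)
    (I : Fin n → Fin (n + 2)) (H : ℕ) : Set (Fin n → ℤ) :=
  {y | ∃ x : Fin (n + 1) → ℤ, IsCampana S L μ x ∧ NonDegenerate L x ∧ (∀ j, |x j| ≤ H) ∧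
    ∀ i, y i = form L (I i) x}

/-- The nonzero integers `c`, `|c| ≤ X`, in which every prime outside `S` has exponent zero or at
least `m`. -/
def full (S : Finset ℕ) (m X : ℕ) : Set ℤ :=
  {c | c ≠ 0 ∧ |c| ≤ X ∧ ∀ p : ℕ, p.Prime → p ∉ S → (p : ℤ) ∣ c → (p : ℤ) ^ m ∣ c}

/-- The integers `t z ^ m`, `z = 1, 2, …`, of absolute value at most `X`. -/
def powers (t : ℤ) (m X : ℕ) : Set ℤ := {c | |c| ≤ X ∧ ∃ z : ℕ, 0 < z ∧ c = t * (z : ℤ) ^ m}

lemma full_eq (S : Finset ℕ) (m X : ℕ) : full S m X = (Aset S m X : Set ℤ) := by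
  ext c
  rw [Finset.mem_coe, mem_Aset]
  unfold full NFull
  rw [Set.mem_ofPred_eq]
  refine and_congr Iff.rfl (and_congr ?_ ?_)
  · rw [Int.abs_eq_natAbs]; exact Nat.cast_le
  · refine forall_congr' fun p => forall_congr' fun _ => forall_congr' fun _ => ?_
    rw [Int.natCast_dvd, ← Nat.cast_pow, Int.natCast_dvd]

/-- The integers `t z ^ m` as a finite set. -/
noncomputable def powF (t : ℤ) (m X : ℕ) : Finset ℤ :=
  (Finset.Icc 1 ⌊((X : ℝ) / |(t : ℝ)|) ^ (1 / (m : ℝ))⌋₊).image (fun z : ℕ => t * (z : ℤ) ^ m)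

lemma powF_iff (t : ℤ) (ht : t ≠ 0) (m : ℕ) (hm : 1 ≤ m) (X z : ℕ) :
    |t * (z : ℤ) ^ m| ≤ X ↔ z ≤ ⌊((X : ℝ) / |(t : ℝ)|) ^ (1 / (m : ℝ))⌋₊ := by
  have ht0 : (0 : ℝ) < |(t : ℝ)| := abs_pos.mpr (by exact_mod_cast ht)
  have hm0 : (0 : ℝ) < m := by exact_mod_cast hm
  rw [Nat.le_floor_iff (by positivity)]
  have h1 : |t * (z : ℤ) ^ m| ≤ X ↔ |(t : ℝ)| * (z : ℝ) ^ m ≤ X := by
    rw [abs_mul, abs_pow, Nat.abs_cast]
    constructor
    · intro h
      exact_mod_cast h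
    · intro h
      exact_mod_cast h
  rw [h1]
  have h2 : |(t : ℝ)| * (z : ℝ) ^ m ≤ X ↔ (z : ℝ) ^ m ≤ (X : ℝ) / |(t : ℝ)| := by
    rw [le_div_iff₀ ht0, mul_comm]
  rw [h2]
  constructor
  · intro h
    calc (z : ℝ) = ((z : ℝ) ^ m) ^ (1 / (m : ℝ)) := by
          rw [one_div, Real.pow_rpow_inv_natCast (by positivity) (by omega)]
      _ ≤ _ := Real.rpow_le_rpow (by positivity) h (by positivity)
  · intro h
    calc (z : ℝ) ^ m ≤ (((X : ℝ) / |(t : ℝ)|) ^ (1 / (m : ℝ))) ^ m :=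
          pow_le_pow_left₀ (by positivity) h m
      _ = (X : ℝ) / |(t : ℝ)| := by
          rw [one_div, Real.rpow_inv_natCast_pow (by positivity) (by omega)]

lemma powers_eq (t : ℤ) (ht : t ≠ 0) (m : ℕ) (hm : 1 ≤ m) (X : ℕ) :
    powers t m X = (powF t m X : Set ℤ) := by
  ext c
  rw [Finset.mem_coe]
  unfold powers powF
  rw [Set.mem_ofPred_eq, Finset.mem_image]
  constructor
  · rintro ⟨h1, z, hz, rfl⟩
    refine ⟨z, ?_, rfl⟩
    rw [Finset.mem_Icc]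
    exact ⟨hz, (powF_iff t ht m hm X z).mp h1⟩
  · rintro ⟨z, hz, rfl⟩
    rw [Finset.mem_Icc] at hz
    exact ⟨(powF_iff t ht m hm X z).mpr hz.2, z, hz.1, rfl⟩

lemma card_powF (t : ℤ) (ht : t ≠ 0) (m : ℕ) (hm : 1 ≤ m) (X : ℕ) :
    (powF t m X).card = ⌊((X : ℝ) / |(t : ℝ)|) ^ (1 / (m : ℝ))⌋₊ := by
  unfold powF
  rw [Finset.card_image_of_injective, Nat.card_Icc, Nat.add_sub_cancel]
  intro z z' h
  have h1 : (z : ℤ) ^ m = (z' : ℤ) ^ m := mul_left_cancel₀ ht h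
  have h2 : z ^ m = z' ^ m := by exact_mod_cast h1
  exact (Nat.pow_left_injective (by omega : m ≠ 0)) h2

/-- The sets of values allowed for one coordinate. -/
def IsType (S : Finset ℕ) (m lam : ℕ) (A : ℕ → Set ℤ) : Prop :=
  (A = fun B => full S m (lam * B)) ∨ ∃ t : ℤ, t ≠ 0 ∧ A = fun B => powers t m (lam * B)

theorem types (η : ℝ) (hη : 0 < η) :
    ∃ h m0 : ℕ, ∀ m : ℕ, m0 ≤ m → 1 ≤ m → ∀ (S : Finset ℕ) (lam : ℕ), 1 ≤ lam →
      ∀ A : ℕ → Set ℤ, IsType S m lam A →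
      ∃ (AF : ℕ → Finset ℤ) (κ : ℝ) (B0 : ℕ), 0 < κ ∧ (∀ B, (AF B : Set ℤ) = A B) ∧
        ∀ B : ℕ, B0 ≤ B → κ * (B : ℝ) ^ (1 / (m : ℝ)) ≤ ((AF B).card : ℝ) ∧
          ∃ R : Finset ℤ, (R.card : ℝ) ≤ η * ((AF B).card : ℝ) ∧
            ∀ c ∈ AF B, (∀ p : ℕ, p.Prime → ((lam * B : ℕ) : ℝ) ^ (5 / (m : ℝ) ^ 2) < (p : ℝ) →
              (p : ℝ) ≤ ((lam * B : ℕ) : ℝ) ^ ((h : ℝ) / (m : ℝ) ^ 2) → ¬ (p : ℤ) ∣ c) → c ∈ R := by
  classical
  obtain ⟨h1, m1, H1⟩ := rough_few η hη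
  obtain ⟨h2, m2, H2⟩ := rough_pow η hη
  refine ⟨max h1 h2, max m1 m2, fun m hmm hm S lam hlam A hA => ?_⟩
  have hm0 : (0 : ℝ) < m := by exact_mod_cast hm
  -- a larger window
  have hwin : ∀ (h' B : ℕ), h' ≤ max h1 h2 → 1 ≤ B → ∀ p : ℕ,
      (p : ℝ) ≤ ((lam * B : ℕ) : ℝ) ^ ((h' : ℝ) / (m : ℝ) ^ 2) →
      (p : ℝ) ≤ ((lam * B : ℕ) : ℝ) ^ (((max h1 h2 : ℕ) : ℝ) / (m : ℝ) ^ 2) := by
    intro h' B hh hB p hp
    refine hp.trans ?_
    have hM : (1 : ℝ) ≤ ((lam * B : ℕ) : ℝ) := by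
      exact_mod_cast Nat.mul_pos (by omega : 0 < lam) hB
    apply Real.rpow_le_rpow_of_exponent_le hM
    apply div_le_div_of_nonneg_right _ (by positivity)
    exact_mod_cast hh
  rcases hA with hA | ⟨t, ht, hA⟩
  · obtain ⟨M0, hM0⟩ := H1 m (le_trans (le_max_left _ _) hmm) S
    refine ⟨fun B => Aset S m (lam * B), 1, max M0 1, one_pos, fun B => ?_, fun B hB => ⟨?_, ?_⟩⟩
    · rw [hA]
      exact (full_eq S m (lam * B)).symm
    · have hB1 : 1 ≤ B := le_trans (le_max_right _ _) hB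
      have hM1 : 1 ≤ lam * B := Nat.mul_pos (by omega) hB1
      rw [one_mul]
      refine le_trans ?_ (aset_lower S m hm (lam * B) hM1)
      apply Real.rpow_le_rpow (by positivity) _ (by positivity)
      exact_mod_cast Nat.le_mul_of_pos_left _ hlam
    · have hB1 : 1 ≤ B := le_trans (le_max_right _ _) hB
      have hMB : M0 ≤ lam * B := le_trans (le_trans (le_max_left _ _) hB)
        (Nat.le_mul_of_pos_left _ hlam)
      refine ⟨_, hM0 (lam * B) hMB, fun c hc hro => ?_⟩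
      rw [Finset.mem_filter]
      exact ⟨hc, fun p hp hp1 hp2 => hro p hp hp1 (hwin h1 B (le_max_left _ _) hB1 p hp2)⟩
  · have htn : 1 ≤ t.natAbs := by omega
    obtain ⟨M0, hM0⟩ := H2 m (le_trans (le_max_right _ _) hmm) t.natAbs htn
    have ht0 : (0 : ℝ) < |(t : ℝ)| := abs_pos.mpr (by exact_mod_cast ht)
    refine ⟨fun B => powF t m (lam * B), 1 / 2 * (1 / |(t : ℝ)|) ^ (1 / (m : ℝ)),
      max M0 (max 1 t.natAbs), by positivity, fun B => ?_, fun B hB => ⟨?_, ?_⟩⟩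
    · rw [hA]
      exact (powers_eq t ht m hm (lam * B)).symm
    · simp only [max_le_iff] at hB
      have hx : ((B : ℝ) / |(t : ℝ)|) ≤ (((lam * B : ℕ) : ℝ) / |(t : ℝ)|) := by
        apply div_le_div_of_nonneg_right _ ht0.le
        exact_mod_cast Nat.le_mul_of_pos_left _ hlam
      have hx1 : 1 ≤ (B : ℝ) / |(t : ℝ)| := by
        rw [one_le_div ht0]
        have h1 : |(t : ℝ)| = ((t.natAbs : ℕ) : ℝ) := by
          rw [← Int.cast_abs, Int.abs_eq_natAbs]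
          simp
        rw [h1]
        exact_mod_cast hB.2.2
      rw [card_powF t ht m hm]
      have h2 : ((B : ℝ) / |(t : ℝ)|) ^ (1 / (m : ℝ)) ≤
          (((lam * B : ℕ) : ℝ) / |(t : ℝ)|) ^ (1 / (m : ℝ)) :=
        Real.rpow_le_rpow (by positivity) hx (by positivity)
      have h3 : 1 ≤ ((B : ℝ) / |(t : ℝ)|) ^ (1 / (m : ℝ)) := Real.one_le_rpow hx1 (by positivity)
      have h4 := Nat.lt_floor_add_one ((((lam * B : ℕ) : ℝ) / |(t : ℝ)|) ^ (1 / (m : ℝ)))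
      have h5 : (1 : ℝ) ≤ (⌊(((lam * B : ℕ) : ℝ) / |(t : ℝ)|) ^ (1 / (m : ℝ))⌋₊ : ℝ) := by
        have h7 : 1 ≤ ⌊(((lam * B : ℕ) : ℝ) / |(t : ℝ)|) ^ (1 / (m : ℝ))⌋₊ := by
          apply Nat.le_floor
          rw [Nat.cast_one]
          exact h3.trans h2
        exact_mod_cast h7
      have h6 : (1 / |(t : ℝ)|) ^ (1 / (m : ℝ)) * (B : ℝ) ^ (1 / (m : ℝ)) =
          ((B : ℝ) / |(t : ℝ)|) ^ (1 / (m : ℝ)) := by
        rw [← Real.mul_rpow (by positivity) (by positivity)]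
        congr 1
        ring
      rw [mul_assoc, h6]
      linarith
    · simp only [max_le_iff] at hB
      obtain ⟨hB1, hB2, hB3⟩ := hB
      have hMB : M0 ≤ lam * B := le_trans hB1 (Nat.le_mul_of_pos_left _ hlam)
      obtain ⟨X, hX⟩ : ∃ X : ℕ, X = ⌊(((lam * B : ℕ) : ℝ) / |(t : ℝ)|) ^ (1 / (m : ℝ))⌋₊ :=
        ⟨_, rfl⟩
      have hXlt : lam * B < t.natAbs * (X + 1) ^ m := by
        by_contra hcon
        rw [not_lt] at hcon
        have h1 : |t * ((X + 1 : ℕ) : ℤ) ^ m| ≤ ((lam * B : ℕ) : ℤ) := by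
          rw [Int.abs_eq_natAbs, Int.natAbs_mul, Int.natAbs_pow, Int.natAbs_natCast]
          exact_mod_cast hcon
        have h2 := (powF_iff t ht m hm (lam * B) (X + 1)).mp h1
        rw [← hX] at h2
        omega
      have h3 := hM0 (lam * B) hMB X hXlt
      refine ⟨((Finset.Icc 1 X).filter (fun z => ∀ p : ℕ, p.Prime →
        ((lam * B : ℕ) : ℝ) ^ (5 / (m : ℝ) ^ 2) < (p : ℝ) →
        (p : ℝ) ≤ ((lam * B : ℕ) : ℝ) ^ ((h2 : ℝ) / (m : ℝ) ^ 2) →
          ¬ p ∣ z)).image (fun z : ℕ => t * (z : ℤ) ^ m), ?_, ?_⟩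
      · rw [card_powF t ht m hm, ← hX]
        refine le_trans ?_ h3
        exact_mod_cast Finset.card_image_le
      · intro c hc hro
        unfold powF at hc
        obtain ⟨z, hz, rfl⟩ := Finset.mem_image.mp hc
        apply Finset.mem_image_of_mem
        rw [Finset.mem_filter, hX]
        refine ⟨hz, fun p hp hp1 hp2 hd => ?_⟩
        refine hro p hp hp1 (hwin h2 B (le_max_right _ _) hB2 p hp2) ?_
        have h4 : (p : ℤ) ∣ (z : ℤ) := by exact_mod_cast hd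
        exact (dvd_pow h4 (by omega)).mul_left _

theorem most_full (n : ℕ) (hn : 1 ≤ n) (δ : ℝ) (hδ : 0 < δ) :
    ∃ m₁ : ℕ, ∀ m : ℕ, m₁ ≤ m → ∀ (S : Finset ℕ) (L : Matrix (Fin (n + 2)) (Fin (n + 1)) ℤ),
      (∀ i, minor L i ≠ 0) → ∀ μ : Fin (n + 2) → ℕ∞, (∀ i, (m : ℕ∞) ≤ μ i) →
      ∀ (I : Fin n → Fin (n + 2)) (κ : ℕ) (lam : Fin n → ℕ), (∀ i, 1 ≤ lam i) →
      ∀ A : Fin n → ℕ → Set ℤ, (∀ i, IsType S m (lam i) (A i)) →
      ∃ B₀ : ℕ, ∀ B : ℕ, B₀ ≤ B →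
        {y ∈ values S L μ I (κ * B) | ∀ i, y i ∈ A i B}.Finite ∧
        ({y ∈ values S L μ I (κ * B) | ∀ i, y i ∈ A i B}.ncard : ℝ) ≤
          δ * ∏ i, ((A i B).ncard : ℝ) := by
  classical
  obtain ⟨h, m0, htyp⟩ := types (δ / 4) (by positivity)
  obtain ⟨m1, hm11, hmain⟩ := main_vec n hn (δ / 4) (by positivity) h
  refine ⟨max m0 m1, fun m hmm S L hL μ hμ I κ lam hlam A hA => ?_⟩
  have hm : 1 ≤ m := le_trans hm11 (le_trans (le_max_right _ _) hmm)
  choose AF κ' B1 hκ' hAF hB1 using fun i => htyp m (le_trans (le_max_left _ _) hmm) hm S (lam i)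
    (hlam i) (A i) (hA i)
  have hrel : ∀ i, rel L i ≠ 0 := by
    intro i
    unfold rel
    exact mul_ne_zero (pow_ne_zero _ (by norm_num)) (hL i)
  obtain ⟨S', hS'⟩ : ∃ S' : Finset ℕ, S' = S ∪ Finset.univ.biUnion
      (fun i => (rel L i).natAbs.primeFactors) := ⟨_, rfl⟩
  obtain ⟨i0, hi0⟩ : ∃ i0 : Fin n, i0 = ⟨0, hn⟩ := ⟨_, rfl⟩
  obtain ⟨C0, hC0⟩ : ∃ C0 : ℕ, C0 = κ * (∑ i, (rel L i).natAbs * ∑ j, (L i j).natAbs) +
      lam i0 := ⟨_, rfl⟩
  obtain ⟨κ0, hκ0, hκ0le⟩ : ∃ κ0 : ℝ, 0 < κ0 ∧ ∀ i, κ0 ≤ κ' i := by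
    have hne : (Finset.univ : Finset (Fin n)).Nonempty := ⟨i0, Finset.mem_univ _⟩
    refine ⟨Finset.univ.inf' hne κ', ?_, fun i => Finset.inf'_le _ (Finset.mem_univ i)⟩
    rw [Finset.lt_inf'_iff]
    exact fun i _ => hκ' i
  obtain ⟨B2, hB2⟩ := hmain m (le_trans (le_max_right _ _) hmm) S' I i0 (fun i => rel L (I i))
    (lam i0) C0 κ0 (fun i => hrel _) (hlam i0) (by rw [hC0]; omega) hκ0
  refine ⟨max B2 (Finset.univ.sup B1), fun B hB => ?_⟩
  have hBB2 : B2 ≤ B := le_trans (le_max_left _ _) hB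
  have hBB1 : ∀ i, B1 i ≤ B := fun i =>
    le_trans (Finset.le_sup (Finset.mem_univ i)) (le_trans (le_max_right _ _) hB)
  obtain ⟨R, hRc, hR⟩ := (hB1 i0 B (hBB1 i0)).2
  -- the points
  obtain ⟨F, hF⟩ : ∃ F : Finset (Fin (n + 1) → ℤ), F =
      (Fintype.piFinset (fun _ => Finset.Icc (-((κ * B : ℕ) : ℤ)) ((κ * B : ℕ) : ℤ))).filter
        (fun x => IsCampana S L μ x ∧ NonDegenerate L x ∧ (∀ j, |x j| ≤ ((κ * B : ℕ) : ℤ)) ∧
          ∀ i, form L (I i) x ∈ A i B) := ⟨_, rfl⟩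
  obtain ⟨Y, hY⟩ : ∃ Y : Finset (Fin n → ℤ), Y = F.image (fun x i => form L (I i) x) := ⟨_, rfl⟩
  have hset : {y ∈ values S L μ I (κ * B) | ∀ i, y i ∈ A i B} = (Y : Set (Fin n → ℤ)) := by
    ext y
    rw [Finset.mem_coe, hY, Finset.mem_image]
    unfold values
    constructor
    · rintro ⟨⟨x, h1, h2, h3, h4⟩, h5⟩
      have h6 : y = fun i => form L (I i) x := funext h4
      refine ⟨x, ?_, h6.symm⟩
      rw [hF, Finset.mem_filter, Fintype.mem_piFinset]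
      refine ⟨fun j => ?_, h1, h2, h3, fun i => ?_⟩
      · rw [Finset.mem_Icc]
        exact abs_le.mp (h3 j)
      · rw [← h4 i]
        exact h5 i
    · rintro ⟨x, hx, rfl⟩
      rw [hF, Finset.mem_filter] at hx
      obtain ⟨-, h1, h2, h3, h4⟩ := hx
      exact ⟨⟨x, h1, h2, h3, fun i => rfl⟩, h4⟩
  rw [hset]
  refine ⟨Y.finite_toSet, ?_⟩
  rw [Set.ncard_coe_finset]
  obtain ⟨f, hf⟩ : ∃ f : (Fin (n + 1) → ℤ) → (Fin (n + 2) → ℤ),
      f = fun x i => rel L i * form L i x := ⟨_, rfl⟩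
  have hfi : ∀ x i, f x i = rel L i * form L i x := fun x i => by rw [hf]
  have himg : (F.image f).image (fun a i => a (I i)) =
      Y.image (fun (y : Fin n → ℤ) i => rel L (I i) * y i) := by
    rw [hY, Finset.image_image, Finset.image_image]
    apply Finset.image_congr
    intro x _
    funext i
    exact hfi x (I i)
  have hcardY : ((F.image f).image (fun a i => a (I i))).card = Y.card := by
    rw [himg]
    apply Finset.card_image_of_injective
    intro y y' hyy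
    funext i
    exact mul_left_cancel₀ (hrel (I i)) (congrFun hyy i)
  have key := hB2 B hBB2 (fun i => AF i B) R (fun i => ?_) hRc hR (F.image f) ?_
  · rw [hcardY] at key
    have h1 : ∏ i, ((A i B).ncard : ℝ) = ∏ i, ((AF i B).card : ℝ) := by
      apply Finset.prod_congr rfl
      intro i _
      rw [← hAF i B, Set.ncard_coe_finset]
    rw [h1]
    refine key.trans (le_of_eq ?_)
    ring
  · refine le_trans ?_ (hB1 i B (hBB1 i)).1
    exact mul_le_mul_of_nonneg_right (hκ0le i) (by positivity)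
  · intro a ha
    rw [Finset.mem_image] at ha
    obtain ⟨x, hx, rfl⟩ := ha
    rw [hF, Finset.mem_filter] at hx
    obtain ⟨-, hx1, hx2, hx3, hx4⟩ := hx
    have hfne : ∀ i, f x i ≠ 0 := fun i => by
      rw [hfi]
      exact mul_ne_zero (hrel i) (hx1.ne_zero i)
    have hnd : ∀ p : ℕ, p.Prime → p ∉ S' → ∀ i, ¬ (p : ℤ) ∣ rel L i := by
      intro p hp hpS i h1
      rw [hS', Finset.mem_union, not_or] at hpS
      apply hpS.2
      rw [Finset.mem_biUnion]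
      refine ⟨i, Finset.mem_univ _, ?_⟩
      rw [Nat.mem_primeFactors]
      exact ⟨hp, Int.natCast_dvd.mp h1, Int.natAbs_ne_zero.mpr (hrel i)⟩
    have hfull : ∀ i, EFull S' (μ i) (f x i).natAbs := by
      intro i p hp hpS hd
      have hd' : (p : ℤ) ∣ rel L i * form L i x := by
        rw [← hfi]
        exact Int.natCast_dvd.mpr hd
      have hpr : ¬ (p : ℤ) ∣ rel L i := hnd p hp hpS i
      rw [hS', Finset.mem_union, not_or] at hpS
      have hp' : Prime (p : ℤ) := Nat.prime_iff_prime_int.mp hp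
      have h2 : (p : ℤ) ∣ form L i x := (hp'.dvd_or_dvd hd').resolve_left hpr
      have h3 := hx1.full i p hp hpS.1 h2
      rw [Int.emultiplicity_natAbs, hfi]
      exact h3.trans (emultiplicity_le_emultiplicity_of_dvd_right (dvd_mul_left _ _))
    have hsize : ∀ i, (f x i).natAbs ≤ C0 * B := by
      intro i
      have h1 : (form L i x).natAbs ≤ (∑ j, (L i j).natAbs) * (κ * B) := by
        unfold form
        rw [Finset.sum_mul]
        refine (Int.natAbs_sum_le _ _).trans (Finset.sum_le_sum fun j _ => ?_)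
        rw [Int.natAbs_mul]
        apply Nat.mul_le_mul_left
        have := abs_le.mp (hx3 j)
        omega
      calc (f x i).natAbs = (rel L i).natAbs * (form L i x).natAbs := by
            rw [hfi]
            exact Int.natAbs_mul _ _
        _ ≤ (rel L i).natAbs * ((∑ j, (L i j).natAbs) * (κ * B)) := Nat.mul_le_mul_left _ h1
        _ = κ * ((rel L i).natAbs * ∑ j, (L i j).natAbs) * B := by ring
        _ ≤ C0 * B := by
            apply Nat.mul_le_mul_right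
            rw [hC0]
            have h2 := Finset.single_le_sum (f := fun i => (rel L i).natAbs * ∑ j, (L i j).natAbs)
              (fun _ _ => Nat.zero_le _) (Finset.mem_univ i)
            have h3 := Nat.mul_le_mul_left κ h2
            exact h3.trans (Nat.le_add_right _ _)
    refine ⟨fun i => ?_, ?_, fun p hp hpS => ?_, ?_, fun i => ?_⟩
    · rw [mem_Aset]
      exact ⟨hfne i, hsize i, (hfull i).nfull (hμ i)⟩
    · rw [hf]
      exact rel_form_sum L x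
    · have hp' : Prime (p : ℤ) := Nat.prime_iff_prime_int.mp hp
      obtain ⟨j, l, hjl, hj, hl⟩ := two_indices L x hx1.primitive p hp (hnd p hp hpS)
      refine ⟨j, l, hjl, fun h => ?_, fun h => ?_⟩
      · rw [hfi] at h
        exact (hp'.dvd_or_dvd h).elim (hnd p hp hpS j) hj
      · rw [hfi] at h
        exact (hp'.dvd_or_dvd h).elim (hnd p hp hpS l) hl
    · rw [hf]
      exact hx2
    · refine ⟨form L (I i) x, ?_, hfi x (I i)⟩
      have h1 := hx4 i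
      rw [← hAF i B] at h1
      exact_mod_cast h1

end Pool.Agent.Helper93.MT
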