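import Pool.Agent.Helper93.MT.Cross

/-!
# MT-5 Vec: vectors with sum zero, one coordinate divisible by `q`

Proof. Let `R a` be the restriction of `a` to the indices `h ∉ {i0, j, l}`; `R a ∈ piFinset (A h)`. The fibre of `R` over `u` maps
injectively to the pairs `(a j, a l) ∈ A j ×ˢ A l` with `q ∣ a j + a l - κ`, `κ = - ∑_{h ∉ {i0,j,l}} u h` (the sum is `0` and
`q ∣ a i0`; and `a i0` is determined by the other coordinates), so by `cross` it has at most `√(coll (A j) * coll (A l))` elements
(`Real.le_sqrt`). Sum over `u` (`card_le_real` of `Helper91/CPX`, see `regime1` in `Helper91/CPX/Regime1.lean`, where the same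
argument is carried out; the splitting of the sum there can be copied). The product over the erased set is
`∏ h : {h // h ≠ i0 ∧ h ≠ j ∧ h ≠ l}, card (A h)` rewritten as a product over
`((univ.erase i0).erase j).erase l`.
-/

set_option autoImplicit false

open Pool.Agent.Helper91.CPX

namespace Pool.Agent.Helper93.MT

theorem vec_count (n q : ℕ) [NeZero q] (i0 j l : Fin (n + 2)) (hj : j ≠ i0) (hl : l ≠ i0)
    (hjl : j ≠ l) (A : Fin (n + 2) → Finset ℤ) (V : Finset (Fin (n + 2) → ℤ))
    (hV : ∀ a ∈ V, ∑ i, a i = 0 ∧ (q : ℤ) ∣ a i0 ∧ ∀ i, i ≠ i0 → a i ∈ A i) :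
    (V.card : ℝ) ≤ ((∏ h ∈ ((Finset.univ.erase i0).erase j).erase l, (A h).card : ℕ) : ℝ) *
      Real.sqrt ((coll (A j) (fun a => (a : ZMod q)) : ℝ) *
        (coll (A l) (fun a => (a : ZMod q)) : ℝ)) := by
  classical
  set K1 : ℝ := Real.sqrt ((coll (A j) (fun a => (a : ZMod q)) : ℝ) *
        (coll (A l) (fun a => (a : ZMod q)) : ℝ)) with hK1
  have hK10 : 0 ≤ K1 := Real.sqrt_nonneg _
  set E := (((Finset.univ : Finset (Fin (n + 2))).erase i0).erase j).erase l with hE
  let R : (Fin (n + 2) → ℤ) → ({h : Fin (n + 2) // h ≠ i0 ∧ h ≠ j ∧ h ≠ l} → ℤ) :=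
    fun a h => a h.1
  have hmemE : ∀ h, h ∈ E ↔ (h ≠ i0 ∧ h ≠ j ∧ h ≠ l) := by
    intro h
    rw [hE, Finset.mem_erase, Finset.mem_erase, Finset.mem_erase]
    constructor
    · rintro ⟨h1, h2, h3, _⟩
      exact ⟨h3, h2, h1⟩
    · rintro ⟨h1, h2, h3⟩
      exact ⟨h3, h2, h1, Finset.mem_univ _⟩
  have hstep : (V.card : ℝ) ≤
      K1 * (Fintype.piFinset (fun h : {h : Fin (n + 2) // h ≠ i0 ∧ h ≠ j ∧ h ≠ l} =>
        A h.1)).card := by
    apply Pool.Agent.Helper87.Camp.card_le_real R
    · intro a ha
      rw [Fintype.mem_piFinset]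
      intro h
      exact (hV a ha).2.2 h.1 h.2.1
    · intro u _
      rcases (V.filter (fun a => R a = u)).eq_empty_or_nonempty with h0 | ⟨a0, ha0⟩
      · rw [h0, Finset.card_empty, Nat.cast_zero]
        exact hK10
      · have hsplit : ∀ a : Fin (n + 2) → ℤ,
            ∑ h, a h = a i0 + (a j + (a l + ∑ h ∈ E, a h)) := by
          intro a
          have hj' : j ∈ (Finset.univ : Finset (Fin (n + 2))).erase i0 :=
            Finset.mem_erase.2 ⟨hj, Finset.mem_univ _⟩
          have hl' : l ∈ ((Finset.univ : Finset (Fin (n + 2))).erase i0).erase j :=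
            Finset.mem_erase.2 ⟨hjl.symm, Finset.mem_erase.2 ⟨hl, Finset.mem_univ _⟩⟩
          rw [← Finset.add_sum_erase Finset.univ a (Finset.mem_univ i0),
            ← Finset.add_sum_erase _ a hj', ← Finset.add_sum_erase _ a hl']
        have hEq : ∀ a, R a = u → ∀ h ∈ E, a h = a0 h := by
          intro a ha h hh
          have h3 : R a = R a0 := by
            rw [ha]
            exact ((Finset.mem_filter.1 ha0).2).symm
          exact congrFun h3 ⟨h, (hmemE h).1 hh⟩
        have hsum : ∀ a ∈ V.filter (fun a => R a = u),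
            a i0 + (a j + (a l + ∑ h ∈ E, a0 h)) = 0 := by
          intro a ha
          rw [Finset.mem_filter] at ha
          rw [← Finset.sum_congr rfl (hEq a ha.2), ← hsplit]
          exact (hV a ha.1).1
        have hle : (V.filter (fun a => R a = u)).card ≤ ((A j ×ˢ A l).filter
              (fun p => (q : ℤ) ∣ p.1 + p.2 - (-∑ h ∈ E, a0 h))).card := by
          refine Finset.card_le_card_of_injOn (fun a => (a j, a l)) ?_ ?_
          · intro a ha
            rw [Finset.mem_coe] at ha
            have hs := hsum a ha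
            rw [Finset.mem_filter] at ha
            rw [Finset.mem_coe, Finset.mem_filter, Finset.mem_product]
            refine ⟨⟨(hV a ha.1).2.2 j hj, (hV a ha.1).2.2 l hl⟩, ?_⟩
            obtain ⟨w, hw⟩ := (hV a ha.1).2.1
            refine ⟨-w, ?_⟩
            change a j + a l - (-∑ h ∈ E, a0 h) = _
            rw [mul_neg, ← hw]
            linarith
          · intro a ha b hb hab
            rw [Finset.mem_coe] at ha hb
            have hsa := hsum a ha
            have hsb := hsum b hb
            rw [Finset.mem_filter] at ha hb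
            have i1 : a j = b j := congrArg Prod.fst hab
            have i2 : a l = b l := congrArg Prod.snd hab
            have i3 : a i0 = b i0 := by
              rw [i1, i2] at hsa
              linarith
            funext h
            by_cases hh1 : h = i0
            · rw [hh1]; exact i3
            · by_cases hh2 : h = j
              · rw [hh2]; exact i1
              · by_cases hh3 : h = l
                · rw [hh3]; exact i2
                · have h3 : R a = R b := by rw [ha.2, hb.2]
                  exact congrFun h3 ⟨h, hh1, hh2, hh3⟩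
        have hcr := cross q (A j) (A l) (-∑ h ∈ E, a0 h)
        have hcr' : (((A j ×ˢ A l).filter
              (fun p => (q : ℤ) ∣ p.1 + p.2 - (-∑ h ∈ E, a0 h))).card : ℝ) ≤ K1 := by
          rw [hK1]
          refine Real.le_sqrt_of_sq_le ?_
          exact_mod_cast hcr
        exact le_trans (by exact_mod_cast hle) hcr'
  rw [Fintype.card_piFinset] at hstep
  have hprod : ∏ h ∈ E, (A h).card =
      ∏ h : {h : Fin (n + 2) // h ≠ i0 ∧ h ≠ j ∧ h ≠ l}, (A h.1).card :=
    Finset.prod_subtype E hmemE (fun h => (A h).card)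
  rw [hprod, mul_comm]
  exact hstep

end Pool.Agent.Helper93.MT
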