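import Pool.Agent.Helper93.MT.CardNS
import Pool.Agent.Helper93.MT.CollNS
import Pool.Agent.Helper93.MT.Vec

/-!
# MT-6 T3: vectors with a medium prime in one coordinate and another coordinate which is not short

Proof. For `a ∈ V` choose the prime `p`, the pair `j ≠ l` (both different from `i0` because `p ∣ a i0`) and `i ≠ i0` with
`a i ∈ NS`: at most `z2 * (n+2)^3` possibilities for `(p, j, l, i)` (`p ≤ z2`, natural numbers `1 ≤ p ≤ ⌊z2⌋₊`). Fix them and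
let `q = p^m`; `q ∣ a i0` (`mem_Aset`, `NFull`, `p ∉ S`), `q ≤ z2^m`, and `z1 < p` gives
`2^(4 m^2) N^4 ≤ (16 N^(4/m^2))^(m^2) ≤ p^(m^2) = q^m`. `vec_count` with `A h = Aset` for `h ≠ i`, `A i = NS`, and for `h = j, l`
filtered by `IsCoprime a q` (`p ∤ a j`, `IsCoprime.pow_right`): the factors are
`card Aset ≤ C1 N^(1/m+ε)` (`aset_count`), `card NS ≤ C2 N^(1/m+ε) W^(-k/m)` (`card_ns`), `coll Aset ≤ C3 q^ε N^(1/m+ε)`
(`collision`), `coll NS ≤ C4 q^ε N^(1/m+ε) W^(-k/m)` (`coll_ns`). There are `n - 1` factors `h ∉ {i0, j, l}` and the square root,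
and exactly one of them contains `NS`: in all cases the product is at most
`C q^ε N^(n (1/m+ε)) W^(-k/(2m))` (`W ≥ 1`, `√(W^(-k/m)) = W^(-k/(2m))`, `W^(-k/m) ≤ W^(-k/(2m))`), `q^ε ≤ z2^(m ε)`.
-/

set_option autoImplicit false

open Pool.Agent.Helper87.Camp Pool.Agent.Helper91.CPX

namespace Pool.Agent.Helper93.MT

/-- the factor which records the position of the coordinate that is not short -/
private lemma g_bound {n : ℕ} (i0 i j l : Fin (n + 2)) (hi : i ≠ i0) (w : ℝ) (hw0 : 0 ≤ w)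
    (hw1 : w ≤ 1) (g : Fin (n + 2) → ℝ) (hg : g = fun h => if h = i then w ^ 2 else 1) :
    (∏ h ∈ ((Finset.univ.erase i0).erase j).erase l, g h) * Real.sqrt (g j * g l) ≤ w := by
  classical
  have hw2 : w ^ 2 ≤ w := by nlinarith
  have hg0 : ∀ h, 0 ≤ g h := by
    intro h
    rw [hg]
    dsimp only
    split_ifs
    · positivity
    · exact zero_le_one
  have hg1 : ∀ h, g h ≤ 1 := by
    intro h
    rw [hg]
    dsimp only
    split_ifs
    · linarith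
    · exact le_refl _
  have hgi : g i = w ^ 2 := by
    rw [hg]
    simp
  by_cases hij : i = j
  · have h1 : (∏ h ∈ ((Finset.univ.erase i0).erase j).erase l, g h) ≤ 1 :=
      Finset.prod_le_one (fun h _ => hg0 h) (fun h _ => hg1 h)
    have h2 : Real.sqrt (g j * g l) ≤ w := by
      rw [← hij, hgi]
      refine Real.sqrt_le_iff.2 ⟨hw0, ?_⟩
      nlinarith [hg1 l, hg0 l, sq_nonneg w]
    calc (∏ h ∈ ((Finset.univ.erase i0).erase j).erase l, g h) * Real.sqrt (g j * g l)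
        ≤ 1 * w := mul_le_mul h1 h2 (Real.sqrt_nonneg _) zero_le_one
      _ = w := one_mul w
  · by_cases hil : i = l
    · have h1 : (∏ h ∈ ((Finset.univ.erase i0).erase j).erase l, g h) ≤ 1 :=
        Finset.prod_le_one (fun h _ => hg0 h) (fun h _ => hg1 h)
      have h2 : Real.sqrt (g j * g l) ≤ w := by
        rw [← hil, hgi]
        refine Real.sqrt_le_iff.2 ⟨hw0, ?_⟩
        nlinarith [hg1 j, hg0 j, sq_nonneg w]
      calc (∏ h ∈ ((Finset.univ.erase i0).erase j).erase l, g h) * Real.sqrt (g j * g l)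
          ≤ 1 * w := mul_le_mul h1 h2 (Real.sqrt_nonneg _) zero_le_one
        _ = w := one_mul w
    · have hiE : i ∈ ((Finset.univ.erase i0).erase j).erase l :=
        Finset.mem_erase.2 ⟨hil, Finset.mem_erase.2 ⟨hij, Finset.mem_erase.2
          ⟨hi, Finset.mem_univ _⟩⟩⟩
      have h1 : (∏ h ∈ ((Finset.univ.erase i0).erase j).erase l, g h) ≤ w ^ 2 := by
        rw [← Finset.mul_prod_erase _ g hiE, hgi]
        calc w ^ 2 * ∏ x ∈ (((Finset.univ.erase i0).erase j).erase l).erase i, g x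
            ≤ w ^ 2 * 1 := mul_le_mul_of_nonneg_left
              (Finset.prod_le_one (fun h _ => hg0 h) (fun h _ => hg1 h)) (sq_nonneg w)
          _ = w ^ 2 := mul_one _
      have h2 : Real.sqrt (g j * g l) ≤ 1 := by
        refine Real.sqrt_le_iff.2 ⟨zero_le_one, ?_⟩
        nlinarith [hg1 j, hg0 j, hg1 l, hg0 l]
      calc (∏ h ∈ ((Finset.univ.erase i0).erase j).erase l, g h) * Real.sqrt (g j * g l)
          ≤ w ^ 2 * 1 := mul_le_mul h1 h2 (Real.sqrt_nonneg _) (sq_nonneg w)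
        _ = w ^ 2 := mul_one _
        _ ≤ w := hw2

private lemma fibre_bound (n m k N q : ℕ) [NeZero q] (S : Finset ℕ) (W : ℝ)
    (i0 i j l : Fin (n + 1 + 2)) (hi : i ≠ i0) (hj : j ≠ i0) (hl : l ≠ i0) (hjl : j ≠ l)
    (C0 M Q w : ℝ) (hC0 : 0 ≤ C0) (hM : 0 ≤ M) (hQ : 0 ≤ Q) (hw0 : 0 ≤ w) (hw1 : w ≤ 1)
    (h1 : ((Aset S m N).card : ℝ) ≤ C0 * M)
    (h2 : ((NS S m k N W).card : ℝ) ≤ C0 * M * w ^ 2)
    (h3 : (coll ((Aset S m N).filter (fun a => IsCoprime a (q : ℤ)))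
      (fun a => (a : ZMod q)) : ℝ) ≤ C0 * Q * M)
    (h4 : (coll ((NS S m k N W).filter (fun a => IsCoprime a (q : ℤ)))
      (fun a => (a : ZMod q)) : ℝ) ≤ C0 * Q * M * w ^ 2)
    (V : Finset (Fin (n + 1 + 2) → ℤ))
    (hV : ∀ a ∈ V, (∀ h, a h ∈ Aset S m N) ∧ ∑ h, a h = 0 ∧ (q : ℤ) ∣ a i0 ∧
      IsCoprime (a j) (q : ℤ) ∧ IsCoprime (a l) (q : ℤ) ∧ ¬ Short S m k W (a i)) :
    (V.card : ℝ) ≤ C0 ^ (n + 1) * Q * M ^ (n + 1) * w := by
  classical
  obtain ⟨g, hg⟩ : ∃ g : Fin (n + 1 + 2) → ℝ, g = fun h => if h = i then w ^ 2 else 1 :=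
    ⟨_, rfl⟩
  obtain ⟨B, hB⟩ : ∃ B : Fin (n + 1 + 2) → Finset ℤ,
    B = fun h => if h = i then NS S m k N W else Aset S m N := ⟨_, rfl⟩
  obtain ⟨A, hA⟩ : ∃ A : Fin (n + 1 + 2) → Finset ℤ,
    A = fun h => if h = j ∨ h = l then (B h).filter (fun a => IsCoprime a (q : ℤ)) else B h :=
    ⟨_, rfl⟩
  have hg0 : ∀ h, 0 ≤ g h := by
    intro h
    rw [hg]
    dsimp only
    split_ifs
    · positivity
    · exact zero_le_one
  have hBc : ∀ h, ((B h).card : ℝ) ≤ C0 * M * g h := by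
    intro h
    rw [hB, hg]
    dsimp only
    split_ifs
    · exact h2
    · rw [mul_one]
      exact h1
  have hBq : ∀ h, (coll ((B h).filter (fun a => IsCoprime a (q : ℤ)))
      (fun a => (a : ZMod q)) : ℝ) ≤ C0 * Q * M * g h := by
    intro h
    rw [hB, hg]
    dsimp only
    split_ifs
    · exact h4
    · rw [mul_one]
      exact h3
  have hAj : A j = (B j).filter (fun a => IsCoprime a (q : ℤ)) := by
    rw [hA]
    dsimp only
    rw [if_pos (Or.inl rfl)]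
  have hAl : A l = (B l).filter (fun a => IsCoprime a (q : ℤ)) := by
    rw [hA]
    dsimp only
    rw [if_pos (Or.inr rfl)]
  have hvec := vec_count (n + 1) q i0 j l hj hl hjl A V (by
    intro a ha
    obtain ⟨v1, v2, v3, v4, v5, v6⟩ := hV a ha
    refine ⟨v2, v3, ?_⟩
    intro h _
    have hBh : a h ∈ B h := by
      rw [hB]
      dsimp only
      split_ifs with h5
      · rw [h5]
        exact mem_NS.2 ⟨v1 i, v6⟩
      · exact v1 h
    rw [hA]
    dsimp only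
    split_ifs with h5
    · rw [Finset.mem_filter]
      refine ⟨hBh, ?_⟩
      rcases h5 with h5 | h5
      · rw [h5]; exact v4
      · rw [h5]; exact v5
    · exact hBh)
  have hEcard : (((Finset.univ.erase i0).erase j).erase l : Finset (Fin (n + 1 + 2))).card = n := by
    rw [Finset.card_erase_of_mem, Finset.card_erase_of_mem, Finset.card_erase_of_mem
            (Finset.mem_univ i0), Finset.card_univ, Fintype.card_fin]
    · omega
    · exact Finset.mem_erase.2 ⟨hj, Finset.mem_univ _⟩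
    · exact Finset.mem_erase.2 ⟨hjl.symm, Finset.mem_erase.2 ⟨hl, Finset.mem_univ _⟩⟩
  have hprod : ((∏ h ∈ ((Finset.univ.erase i0).erase j).erase l, (A h).card : ℕ) : ℝ) ≤
      (C0 * M) ^ n * ∏ h ∈ ((Finset.univ.erase i0).erase j).erase l, g h := by
    have e0 : (C0 * M) ^ n = ∏ _h ∈ (((Finset.univ.erase i0).erase j).erase l :
        Finset (Fin (n + 1 + 2))), (C0 * M) := by
      rw [Finset.prod_const, hEcard]
    rw [e0, ← Finset.prod_mul_distrib, Nat.cast_prod]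
    refine Finset.prod_le_prod (fun h _ => Nat.cast_nonneg _) (fun h _ => ?_)
    refine le_trans ?_ (hBc h)
    rw [hA]
    dsimp only
    split_ifs
    · exact_mod_cast Finset.card_filter_le _ _
    · exact le_refl _
  have hsqrt : Real.sqrt ((coll (A j) (fun a => (a : ZMod q)) : ℝ) *
        (coll (A l) (fun a => (a : ZMod q)) : ℝ)) ≤ C0 * Q * M * Real.sqrt (g j * g l) := by
    have e1 : C0 * Q * M * Real.sqrt (g j * g l) =
        Real.sqrt ((C0 * Q * M) ^ 2 * (g j * g l)) := by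
      rw [Real.sqrt_mul (sq_nonneg _), Real.sqrt_sq (by positivity)]
    rw [e1]
    apply Real.sqrt_le_sqrt
    have e2 : (C0 * Q * M) ^ 2 * (g j * g l) = (C0 * Q * M * g j) * (C0 * Q * M * g l) := by ring
    rw [e2, hAj, hAl]
    exact mul_le_mul (hBq j) (hBq l) (Nat.cast_nonneg _)
      (mul_nonneg (by positivity) (hg0 j))
  have hgb := g_bound i0 i j l hi w hw0 hw1 g hg
  have hCM : 0 ≤ C0 * M := by positivity
  calc (V.card : ℝ) ≤ ((∏ h ∈ ((Finset.univ.erase i0).erase j).erase l, (A h).card : ℕ) : ℝ) *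
      Real.sqrt ((coll (A j) (fun a => (a : ZMod q)) : ℝ) *
        (coll (A l) (fun a => (a : ZMod q)) : ℝ)) := hvec
    _ ≤ ((C0 * M) ^ n * ∏ h ∈ ((Finset.univ.erase i0).erase j).erase l, g h) *
        (C0 * Q * M * Real.sqrt (g j * g l)) :=
        mul_le_mul hprod hsqrt (Real.sqrt_nonneg _)
          (mul_nonneg (by positivity) (Finset.prod_nonneg fun h _ => hg0 h))
    _ = C0 ^ (n + 1) * Q * M ^ (n + 1) *
        ((∏ h ∈ ((Finset.univ.erase i0).erase j).erase l, g h) * Real.sqrt (g j * g l)) := by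
        rw [mul_pow]
        ring
    _ ≤ C0 ^ (n + 1) * Q * M ^ (n + 1) * w :=
        mul_le_mul_of_nonneg_left hgb (by positivity)

theorem t3 (n m k : ℕ) (hn : 1 ≤ n) (hm : 1 ≤ m) (S : Finset ℕ) (ε : ℝ) (hε : 0 < ε) :
    ∃ C : ℝ, 1 ≤ C ∧ ∀ N : ℕ, 1 ≤ N → ∀ W : ℝ, 1 ≤ W → ∀ z1 z2 : ℝ,
      16 * (N : ℝ) ^ (4 / (m : ℝ) ^ 2) ≤ z1 → 1 ≤ z2 → ∀ i0 : Fin (n + 2),
      ∀ V : Finset (Fin (n + 2) → ℤ),
      (∀ a ∈ V, (∀ i, a i ∈ Aset S m N) ∧ ∑ i, a i = 0 ∧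
        (∀ p : ℕ, p.Prime → p ∉ S → ∃ j l, j ≠ l ∧ ¬ (p : ℤ) ∣ a j ∧ ¬ (p : ℤ) ∣ a l) ∧
        (∃ p : ℕ, p.Prime ∧ p ∉ S ∧ z1 < (p : ℝ) ∧ (p : ℝ) ≤ z2 ∧ (p : ℤ) ∣ a i0) ∧
        ∃ i, i ≠ i0 ∧ ¬ Short S m k W (a i)) →
      (V.card : ℝ) ≤ C * z2 ^ (1 + (m : ℝ) * ε) * (N : ℝ) ^ ((n : ℝ) * (1 / (m : ℝ) + ε)) *
        W ^ (-((k : ℝ) / (2 * (m : ℝ)))) := by
  classical
  obtain ⟨r, rfl⟩ : ∃ r, n = r + 1 := ⟨n - 1, by omega⟩
  obtain ⟨C1, hC1, h1⟩ := aset_count S m hm ε hε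
  obtain ⟨C2, hC2, h2⟩ := card_ns S m k hm ε hε
  obtain ⟨C3, hC3, h3⟩ := collision S m hm ε hε
  obtain ⟨C4, hC4, h4⟩ := coll_ns S m k hm ε hε
  obtain ⟨C0, hC0, h01, h02, h03, h04⟩ : ∃ C0 : ℝ, 1 ≤ C0 ∧ C1 ≤ C0 ∧ C2 ≤ C0 ∧ C3 ≤ C0 ∧
      C4 ≤ C0 := ⟨C1 + C2 + C3 + C4, by linarith, by linarith, by linarith, by linarith,
        by linarith⟩
  have hr3 : (1 : ℝ) ≤ ((r : ℝ) + 3) ^ 3 := one_le_pow₀ (by
    have : (0 : ℝ) ≤ r := Nat.cast_nonneg r
    linarith)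
  have hC0' : 0 ≤ C0 := by linarith
  refine ⟨((r : ℝ) + 3) ^ 3 * C0 ^ (r + 1), one_le_mul_of_one_le_of_one_le hr3
    (one_le_pow₀ hC0), fun N hN W hW z1 z2 hz1 hz2 i0 V hV => ?_⟩
  have hN1 : (1 : ℝ) ≤ N := by exact_mod_cast hN
  have hN0 : (0 : ℝ) < N := by linarith
  have hm0 : (0 : ℝ) < m := by exact_mod_cast hm
  have hW0 : (0 : ℝ) < W := by linarith
  have hz20 : (0 : ℝ) < z2 := by linarith
  obtain ⟨M, hM⟩ : ∃ M : ℝ, M = (N : ℝ) ^ (1 / (m : ℝ) + ε) := ⟨_, rfl⟩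
  have hM0 : 0 ≤ M := by rw [hM]; positivity
  obtain ⟨w, hw⟩ : ∃ w : ℝ, w = W ^ (-((k : ℝ) / (2 * (m : ℝ)))) := ⟨_, rfl⟩
  have hw0 : 0 ≤ w := by rw [hw]; positivity
  have hw1 : w ≤ 1 := by
    rw [hw]
    apply Real.rpow_le_one_of_one_le_of_nonpos hW
    have : 0 ≤ (k : ℝ) / (2 * (m : ℝ)) := by positivity
    linarith
  have hw2 : W ^ (-((k : ℝ) / (m : ℝ))) = w ^ 2 := by
    rw [hw, ← Real.rpow_natCast, ← Real.rpow_mul hW0.le]
    congr 1
    push_cast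
    field_simp
  obtain ⟨Q, hQ⟩ : ∃ Q : ℝ, Q = z2 ^ ((m : ℝ) * ε) := ⟨_, rfl⟩
  have hQ0 : 0 ≤ Q := by rw [hQ]; positivity
  choose! gp hgp using fun a ha => (hV a ha).2.2.2.1
  choose! gi hgi using fun a ha => (hV a ha).2.2.2.2
  have hjl0 : ∀ a, ∃ jl : Fin (r + 1 + 2) × Fin (r + 1 + 2), a ∈ V → jl.1 ≠ jl.2 ∧
      ¬ ((gp a : ℕ) : ℤ) ∣ a jl.1 ∧ ¬ ((gp a : ℕ) : ℤ) ∣ a jl.2 := by
    intro a
    by_cases ha : a ∈ V
    · obtain ⟨j, l, e1, e2, e3⟩ := (hV a ha).2.2.1 (gp a) (hgp a ha).1 (hgp a ha).2.1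
      exact ⟨(j, l), fun _ => ⟨e1, e2, e3⟩⟩
    · exact ⟨(i0, i0), fun h => absurd h ha⟩
  choose gjl hgjl using hjl0
  set K : ℝ := C0 ^ (r + 1) * Q * M ^ (r + 1) * w with hK
  have hK0 : 0 ≤ K := by positivity
  let f : (Fin (r + 1 + 2) → ℤ) → (Fin (r + 1 + 2) × Fin (r + 1 + 2)) × Fin (r + 1 + 2) × ℕ :=
    fun a => (gjl a, gi a, gp a)
  have hstep1 : (V.card : ℝ) ≤ K * ((((Finset.univ ×ˢ Finset.univ) ×ˢ (Finset.univ ×ˢ
      Finset.Icc 1 ⌊z2⌋₊) :
        Finset ((Fin (r + 1 + 2) × Fin (r + 1 + 2)) × Fin (r + 1 + 2) × ℕ))).card : ℝ) := by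
    apply card_le_real f
    · intro a ha
      simp only [Finset.mem_product, Finset.mem_univ, true_and, Finset.mem_Icc, f]
      exact ⟨(hgp a ha).1.one_le, Nat.le_floor (hgp a ha).2.2.2.1⟩
    · rintro ⟨⟨j, l⟩, i, p⟩ _
      rcases (V.filter (fun a => f a = ((j, l), i, p))).eq_empty_or_nonempty with h0 | ⟨a1, ha1⟩
      · rw [h0, Finset.card_empty, Nat.cast_zero]
        exact hK0
      · have hkey : ∀ a ∈ V.filter (fun a => f a = ((j, l), i, p)), a ∈ V ∧ gjl a = (j, l) ∧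
            gi a = i ∧ gp a = p := by
          intro a ha
          rw [Finset.mem_filter] at ha
          have h5 := ha.2
          exact ⟨ha.1, congrArg Prod.fst h5, congrArg (fun x => x.2.1) h5,
            congrArg (fun x => x.2.2) h5⟩
        obtain ⟨hV1, e1, e2, e3⟩ := hkey a1 ha1
        have hp := hgp a1 hV1
        rw [e3] at hp
        obtain ⟨hpp, hpS, hpz1, hpz2, hpd⟩ := hp
        have hjl1 := hgjl a1 hV1
        rw [e1, e3] at hjl1
        dsimp only at hjl1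
        obtain ⟨hjl, hpj, hpl⟩ := hjl1
        have hi1 := (hgi a1 hV1).1
        rw [e2] at hi1
        have hji0 : j ≠ i0 := fun h => hpj (h ▸ hpd)
        have hli0 : l ≠ i0 := fun h => hpl (h ▸ hpd)
        have hq1 : 1 ≤ p ^ m := Nat.one_le_pow _ _ hpp.pos
        have hneq : NeZero (p ^ m) := ⟨by omega⟩
        have hqbig : 2 ^ (4 * m ^ 2) * N ^ 4 ≤ (p ^ m) ^ m := by
          have e5 : (16 * (N : ℝ) ^ (4 / (m : ℝ) ^ 2)) ^ (m ^ 2) =
              2 ^ (4 * m ^ 2) * (N : ℝ) ^ 4 := by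
            rw [mul_pow, ← Real.rpow_natCast ((N : ℝ) ^ (4 / (m : ℝ) ^ 2)), ← Real.rpow_mul hN0.le]
            have e6 : 4 / (m : ℝ) ^ 2 * ((m ^ 2 : ℕ) : ℝ) = ((4 : ℕ) : ℝ) := by
              push_cast
              field_simp
            rw [e6, Real.rpow_natCast]
            congr 1
            rw [pow_mul]
            norm_num
          have e7 : (16 * (N : ℝ) ^ (4 / (m : ℝ) ^ 2)) ^ (m ^ 2) ≤ (p : ℝ) ^ (m ^ 2) :=
            pow_le_pow_left₀ (by positivity) (by linarith) _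
          rw [e5] at e7
          have e8 : 2 ^ (4 * m ^ 2) * N ^ 4 ≤ p ^ (m ^ 2) := by exact_mod_cast e7
          rw [← pow_mul, ← sq]
          exact e8
        have hqε : ((p ^ m : ℕ) : ℝ) ^ ε ≤ Q := by
          rw [hQ, Real.rpow_mul hz20.le]
          apply Real.rpow_le_rpow (by positivity) _ hε.le
          rw [Real.rpow_natCast]
          push_cast
          exact pow_le_pow_left₀ (Nat.cast_nonneg _) hpz2 _
        have hqε0 : 0 ≤ ((p ^ m : ℕ) : ℝ) ^ ε := by positivity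
        refine fibre_bound r m k N (p ^ m) S W i0 i j l hi1 hji0 hli0 hjl C0 M Q w hC0' hM0 hQ0
          hw0 hw1 ?_ ?_ ?_ ?_ _ ?_
        · refine (h1 N hN).trans ?_
          rw [← hM]
          exact mul_le_mul_of_nonneg_right h01 hM0
        · refine (h2 N hN W hW).trans ?_
          rw [← hM, hw2]
          exact mul_le_mul_of_nonneg_right (mul_le_mul_of_nonneg_right h02 hM0) (sq_nonneg w)
        · refine (h3 N hN (p ^ m) hq1 hqbig).trans ?_
          rw [← hM]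
          exact mul_le_mul_of_nonneg_right (mul_le_mul h03 hqε hqε0 hC0') hM0
        · refine (h4 N hN W hW (p ^ m) hq1 hqbig).trans ?_
          rw [← hM, hw2]
          exact mul_le_mul_of_nonneg_right (mul_le_mul_of_nonneg_right
            (mul_le_mul h04 hqε hqε0 hC0') hM0) (sq_nonneg w)
        · intro a ha
          obtain ⟨hVa, f1, f2, f3⟩ := hkey a ha
          have hpa := hgp a hVa
          rw [f3] at hpa
          have hjla := hgjl a hVa
          rw [f1, f3] at hjla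
          dsimp only at hjla
          have hia := (hgi a hVa).2
          rw [f2] at hia
          have hpr : Prime (p : ℤ) := Nat.prime_iff_prime_int.1 hpp
          have hcop : ∀ x : ℤ, ¬ (p : ℤ) ∣ x → IsCoprime x ((p ^ m : ℕ) : ℤ) := by
            intro x hx
            push_cast
            exact ((hpr.coprime_iff_not_dvd.2 hx).symm).pow_right
          refine ⟨(hV a hVa).1, (hV a hVa).2.1, ?_, hcop _ hjla.2.1, hcop _ hjla.2.2, hia⟩
          have h6 := (mem_Aset.1 ((hV a hVa).1 i0)).2.2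
          rw [Int.natCast_dvd]
          exact h6 p hpp hpS (Int.natCast_dvd.1 hpa.2.2.2.2)
  have hU : ((((Finset.univ ×ˢ Finset.univ) ×ˢ (Finset.univ ×ˢ
      Finset.Icc 1 ⌊z2⌋₊) :
        Finset ((Fin (r + 1 + 2) × Fin (r + 1 + 2)) × Fin (r + 1 + 2) × ℕ))).card : ℝ) ≤
      ((r : ℝ) + 3) ^ 3 * z2 := by
    rw [Finset.card_product, Finset.card_product, Finset.card_product, Finset.card_univ,
      Fintype.card_fin, Nat.card_Icc, Nat.add_sub_cancel]
    have h5 : ((⌊z2⌋₊ : ℕ) : ℝ) ≤ z2 := Nat.floor_le hz20.le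
    push_cast
    have h6 : ((r : ℝ) + 1 + 2) * ((r : ℝ) + 1 + 2) * (((r : ℝ) + 1 + 2) * (⌊z2⌋₊ : ℝ)) =
        ((r : ℝ) + 3) ^ 3 * (⌊z2⌋₊ : ℝ) := by ring
    rw [h6]
    exact mul_le_mul_of_nonneg_left h5 (by positivity)
  have hMn : M ^ (r + 1) = (N : ℝ) ^ (((r + 1 : ℕ) : ℝ) * (1 / (m : ℝ) + ε)) := by
    rw [hM, ← Real.rpow_natCast, ← Real.rpow_mul hN0.le, mul_comm]
  have hz : z2 ^ (1 + (m : ℝ) * ε) = z2 * Q := by
    rw [hQ, Real.rpow_add hz20, Real.rpow_one]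
  rw [← hMn, hz, ← hw]
  calc (V.card : ℝ) ≤ _ := hstep1
    _ ≤ K * (((r : ℝ) + 3) ^ 3 * z2) := mul_le_mul_of_nonneg_left hU hK0
    _ = ((r : ℝ) + 3) ^ 3 * C0 ^ (r + 1) * (z2 * Q) * M ^ (r + 1) * w := by
        rw [hK]
        ring

end Pool.Agent.Helper93.MT
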