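import Pool.Agent.Helper93.MT.Bds
import Pool.Agent.Helper93.MT.T3
import Pool.Agent.Helper93.MT.AllShort

/-!
# MT-11 Main: the vectors (assembly)

`main_vec`: with finite sets `A i` of integers (at least `κ B^(1/m)` elements), of which at most `η` of `A i0` have no prime
factor in the window `(M^(5/m^2), M^(h/m^2)]`, `M = lam B`: at most `4 η` of the `n`-tuples of `∏ A i` come from vectors `a`.
-/

set_option autoImplicit false

open Pool.Agent.Helper87.Camp Pool.Agent.Helper91.CPX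

namespace Pool.Agent.Helper93.MT

/-- The exponents: everything for large `B`. -/
lemma exponents (n h m k : ℕ) (hm : 1 ≤ m) (hk : k = 8 * (n + 2) * (h + 2)) (N : ℝ)
    (hN : 1 ≤ N) (W : ℝ) (hW : W = N ^ (1 / (4 * ((n : ℝ) + 2)) / (m : ℝ))) :
    1 ≤ W ∧ W ^ (n + 2) * N ^ ((1 / 4) / (m : ℝ)) = N ^ (1 / (2 * (m : ℝ))) ∧
    N ^ (1 / (m : ℝ) + 1 / (m : ℝ) ^ 2) * W ^ (-((k : ℝ) / (m : ℝ))) ≤
      N ^ (1 / (m : ℝ) - 1 / (m : ℝ) ^ 2) ∧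
    (∀ z2 : ℝ, 1 ≤ z2 → z2 ≤ N ^ ((h : ℝ) / (m : ℝ) ^ 2) →
      z2 ^ (1 + (m : ℝ) * (1 / ((m : ℝ) ^ 2 * ((n : ℝ) + h + 1)))) *
        N ^ ((n : ℝ) * (1 / (m : ℝ) + 1 / ((m : ℝ) ^ 2 * ((n : ℝ) + h + 1)))) *
        W ^ (-((k : ℝ) / (2 * (m : ℝ)))) ≤ N ^ ((n : ℝ) / (m : ℝ) - 1 / (m : ℝ) ^ 2)) := by
  have hm0 : (0 : ℝ) < m := by exact_mod_cast hm
  have hm1 : (1 : ℝ) ≤ m := by exact_mod_cast hm
  have hN0 : 0 < N := by linarith
  have hn0 : (0 : ℝ) ≤ n := Nat.cast_nonneg _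
  have hh0 : (0 : ℝ) ≤ h := Nat.cast_nonneg _
  have hkR : (k : ℝ) = 8 * ((n : ℝ) + 2) * ((h : ℝ) + 2) := by
    rw [hk]; push_cast; ring
  refine ⟨?_, ?_, ?_, ?_⟩
  · rw [hW]
    exact Real.one_le_rpow hN (by positivity)
  · rw [hW, ← Real.rpow_natCast, ← Real.rpow_mul hN0.le, ← Real.rpow_add hN0]
    congr 1
    push_cast
    field_simp
    norm_num
  · rw [hW, ← Real.rpow_mul hN0.le, ← Real.rpow_add hN0]
    apply Real.rpow_le_rpow_of_exponent_le hN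
    rw [hkR]
    have h1 : 1 / (4 * ((n : ℝ) + 2)) / (m : ℝ) * -(8 * ((n : ℝ) + 2) * ((h : ℝ) + 2) / (m : ℝ)) =
        -(2 * ((h : ℝ) + 2)) * (1 / (m : ℝ) ^ 2) := by
      field_simp
      ring
    rw [h1]
    have h2 : 0 < 1 / (m : ℝ) ^ 2 := by positivity
    nlinarith
  · intro z2 hz2 hz2N
    have h1 : 1 / (4 * ((n : ℝ) + 2)) / (m : ℝ) *
        -(8 * ((n : ℝ) + 2) * ((h : ℝ) + 2) / (2 * (m : ℝ))) =
        -((h : ℝ) + 2) * (1 / (m : ℝ) ^ 2) := by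
      field_simp
      ring
    have h3 : z2 ^ (1 + (m : ℝ) * (1 / ((m : ℝ) ^ 2 * ((n : ℝ) + h + 1)))) ≤
        (N ^ ((h : ℝ) / (m : ℝ) ^ 2)) ^ (1 + (m : ℝ) * (1 / ((m : ℝ) ^ 2 * ((n : ℝ) + h + 1)))) :=
      Real.rpow_le_rpow (by linarith) hz2N (by positivity)
    have h4 : z2 ^ (1 + (m : ℝ) * (1 / ((m : ℝ) ^ 2 * ((n : ℝ) + h + 1)))) *
        N ^ ((n : ℝ) * (1 / (m : ℝ) + 1 / ((m : ℝ) ^ 2 * ((n : ℝ) + h + 1)))) *
        W ^ (-((k : ℝ) / (2 * (m : ℝ)))) ≤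
        (N ^ ((h : ℝ) / (m : ℝ) ^ 2)) ^ (1 + (m : ℝ) * (1 / ((m : ℝ) ^ 2 * ((n : ℝ) + h + 1)))) *
        N ^ ((n : ℝ) * (1 / (m : ℝ) + 1 / ((m : ℝ) ^ 2 * ((n : ℝ) + h + 1)))) *
        W ^ (-((k : ℝ) / (2 * (m : ℝ)))) := by
      apply mul_le_mul_of_nonneg_right
      · exact mul_le_mul_of_nonneg_right h3 (Real.rpow_nonneg hN0.le _)
      · rw [hW]
        exact Real.rpow_nonneg (Real.rpow_nonneg hN0.le _) _
    refine h4.trans ?_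
    rw [hW, ← Real.rpow_mul hN0.le, ← Real.rpow_mul hN0.le, ← Real.rpow_add hN0,
      ← Real.rpow_add hN0]
    apply Real.rpow_le_rpow_of_exponent_le hN
    rw [hkR, h1]
    have h5 : (h : ℝ) / (m : ℝ) ^ 2 * (1 + (m : ℝ) * (1 / ((m : ℝ) ^ 2 * ((n : ℝ) + h + 1)))) +
        (n : ℝ) * (1 / (m : ℝ) + 1 / ((m : ℝ) ^ 2 * ((n : ℝ) + h + 1))) =
        (n : ℝ) / (m : ℝ) + (h : ℝ) * (1 / (m : ℝ) ^ 2) +
          (((h : ℝ) / m + n) / ((n : ℝ) + h + 1)) * (1 / (m : ℝ) ^ 2) := by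
      field_simp
      ring
    rw [h5]
    have h6 : ((h : ℝ) / m + n) / ((n : ℝ) + h + 1) ≤ 1 := by
      rw [div_le_one (by positivity)]
      have h7 : (h : ℝ) / m ≤ h := div_le_self hh0 hm1
      linarith
    have h2 : 0 < 1 / (m : ℝ) ^ 2 := by positivity
    nlinarith

theorem main_vec (n : ℕ) (hn : 1 ≤ n) (η : ℝ) (hη : 0 < η) (h : ℕ) :
    ∃ m1 : ℕ, 1 ≤ m1 ∧ ∀ m : ℕ, m1 ≤ m → ∀ (S' : Finset ℕ) (I : Fin n → Fin (n + 2))
      (i0 : Fin n) (ρ : Fin n → ℤ) (lam C0 : ℕ) (κ : ℝ),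
      (∀ i, ρ i ≠ 0) → 1 ≤ lam → lam ≤ C0 → 0 < κ →
      ∃ B0 : ℕ, ∀ B : ℕ, B0 ≤ B → ∀ (A : Fin n → Finset ℤ) (R : Finset ℤ),
        (∀ i, κ * (B : ℝ) ^ (1 / (m : ℝ)) ≤ ((A i).card : ℝ)) →
        (R.card : ℝ) ≤ η * ((A i0).card : ℝ) →
        (∀ c ∈ A i0, (∀ p : ℕ, p.Prime → ((lam * B : ℕ) : ℝ) ^ (5 / (m : ℝ) ^ 2) < (p : ℝ) →
          (p : ℝ) ≤ ((lam * B : ℕ) : ℝ) ^ ((h : ℝ) / (m : ℝ) ^ 2) → ¬ (p : ℤ) ∣ c) → c ∈ R) →
        ∀ V : Finset (Fin (n + 2) → ℤ),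
        (∀ a ∈ V, (∀ i, a i ∈ Aset S' m (C0 * B)) ∧ ∑ i, a i = 0 ∧
          (∀ p : ℕ, p.Prime → p ∉ S' → ∃ j l, j ≠ l ∧ ¬ (p : ℤ) ∣ a j ∧ ¬ (p : ℤ) ∣ a l) ∧
          (∀ J : Finset (Fin (n + 2)), J.Nonempty → J ≠ Finset.univ → ∑ i ∈ J, a i ≠ 0) ∧
          ∀ i, ∃ c ∈ A i, a (I i) = ρ i * c) →
        ((V.image (fun a i => a (I i))).card : ℝ) ≤ 4 * η * ∏ i, ((A i).card : ℝ) := by
  classical
  obtain ⟨k, hk⟩ : ∃ k : ℕ, k = 8 * (n + 2) * (h + 2) := ⟨_, rfl⟩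
  obtain ⟨m1, hm11, hshort⟩ := all_short n k hn (1 / 4) (by norm_num)
  refine ⟨m1, hm11, fun m hmm S' I i0 ρ lam C0 κ hρ hlam hlamC hκ => ?_⟩
  have hm : 1 ≤ m := le_trans hm11 hmm
  have hm0 : (0 : ℝ) < m := by exact_mod_cast hm
  have hm1 : (1 : ℝ) ≤ m := by exact_mod_cast hm
  obtain ⟨C4, hC4, h4⟩ := hshort m hmm S'
  obtain ⟨C2, hC2, h2⟩ := card_ns S' m k hm (1 / (m : ℝ) ^ 2) (by positivity)
  obtain ⟨C3, hC3, h3⟩ := t3 n m k hn hm S' (1 / ((m : ℝ) ^ 2 * ((n : ℝ) + h + 1))) (by positivity)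
  have hn0 : (0 : ℝ) ≤ n := Nat.cast_nonneg _
  have hn1 : (1 : ℝ) ≤ n := by exact_mod_cast hn
  have hC00 : (0 : ℝ) ≤ C0 := Nat.cast_nonneg _
  have hmsq : 0 < 1 / (m : ℝ) ^ 2 := by positivity
  have hηκ : 0 < η * κ := by positivity
  have hηκn : 0 < η * κ ^ n := by positivity
  obtain ⟨B2, hB2⟩ := ev_le C2 C0 (1 / (m : ℝ) - 1 / (m : ℝ) ^ 2) (1 / (m : ℝ)) (η * κ) hC00
    (by linarith) hηκ
  obtain ⟨B3, hB3⟩ := ev_le C3 C0 ((n : ℝ) / (m : ℝ) - 1 / (m : ℝ) ^ 2) ((n : ℝ) / (m : ℝ))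
    (η * κ ^ n) hC00 (by linarith) hηκn
  obtain ⟨B4, hB4⟩ := ev_le C4 C0 (1 / (2 * (m : ℝ))) ((n : ℝ) / (m : ℝ)) (η * κ ^ n) hC00
    (by
      rw [div_lt_div_iff₀ (by positivity) hm0]
      nlinarith) hηκn
  obtain ⟨B5, hB5⟩ := ev_le 16 C0 (4 / (m : ℝ) ^ 2) (5 / (m : ℝ) ^ 2) 1 hC00
    (by
      rw [div_lt_div_iff₀ (by positivity) (by positivity)]
      nlinarith [pow_pos hm0 2]) one_pos
  obtain ⟨B6, hB6⟩ := ev_le (((S'.sup id : ℕ) : ℝ) + 1) C0 0 (5 / (m : ℝ) ^ 2) 1 hC00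
    (by positivity) one_pos
  refine ⟨max B2 (max B3 (max B4 (max B5 (max B6 1)))), fun B hB A R hAc hRc hRm V hV => ?_⟩
  simp only [max_le_iff] at hB
  obtain ⟨hB2', hB3', hB4', hB5', hB6', hB1⟩ := hB
  have e2 := hB2 B hB2'
  have e3 := hB3 B hB3'
  have e4 := hB4 B hB4'
  have e5 := hB5 B hB5'
  have e6 := hB6 B hB6'
  rw [Real.rpow_zero, mul_one, one_mul] at e6
  rw [one_mul] at e5
  have hC01 : 1 ≤ C0 := le_trans hlam hlamC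
  obtain ⟨N, hNd⟩ : ∃ N : ℕ, N = C0 * B := ⟨_, rfl⟩
  have hN1 : 1 ≤ N := by
    rw [hNd]
    exact Nat.mul_pos (by omega) hB1
  have hN1R : (1 : ℝ) ≤ N := by exact_mod_cast hN1
  have hNR : (N : ℝ) = (C0 : ℝ) * B := by rw [hNd]; push_cast; ring
  have hBR : (1 : ℝ) ≤ B := by exact_mod_cast hB1
  rw [← hNR] at e2 e3 e4 e5
  obtain ⟨M, hMd⟩ : ∃ M : ℕ, M = lam * B := ⟨_, rfl⟩
  have hBM' : B ≤ M := by
    rw [hMd]
    exact Nat.le_mul_of_pos_left _ hlam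
  have hM1 : 1 ≤ M := le_trans hB1 hBM'
  have hM1R : (1 : ℝ) ≤ M := by exact_mod_cast hM1
  have hMN : M ≤ N := by
    rw [hMd, hNd]
    exact Nat.mul_le_mul_right _ hlamC
  have hMNR : (M : ℝ) ≤ N := by exact_mod_cast hMN
  have hBMR : (B : ℝ) ≤ M := by exact_mod_cast hBM'
  rw [← hMd] at hRm
  obtain ⟨z1, hz1⟩ : ∃ z1 : ℝ, z1 = (M : ℝ) ^ (5 / (m : ℝ) ^ 2) := ⟨_, rfl⟩
  obtain ⟨z2, hz2⟩ : ∃ z2 : ℝ, z2 = (M : ℝ) ^ ((h : ℝ) / (m : ℝ) ^ 2) := ⟨_, rfl⟩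
  have hBz1 : (B : ℝ) ^ (5 / (m : ℝ) ^ 2) ≤ z1 := by
    rw [hz1]
    exact Real.rpow_le_rpow (by positivity) hBMR (by positivity)
  have hz21 : 1 ≤ z2 := by
    rw [hz2]
    exact Real.one_le_rpow hM1R (by positivity)
  have hz2N : z2 ≤ (N : ℝ) ^ ((h : ℝ) / (m : ℝ) ^ 2) := by
    rw [hz2]
    exact Real.rpow_le_rpow (by positivity) hMNR (by positivity)
  obtain ⟨W, hW⟩ : ∃ W : ℝ, W = (N : ℝ) ^ (1 / (4 * ((n : ℝ) + 2)) / (m : ℝ)) := ⟨_, rfl⟩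
  obtain ⟨hW1, hW2, hW3, hW4⟩ := exponents n h m k hm hk N hN1R W hW
  -- the sizes of the sets
  have hprodlow : κ ^ n * (B : ℝ) ^ ((n : ℝ) / (m : ℝ)) ≤ ∏ i, ((A i).card : ℝ) := by
    have h1 : ∏ _i : Fin n, (κ * (B : ℝ) ^ (1 / (m : ℝ))) ≤ ∏ i, ((A i).card : ℝ) :=
      Finset.prod_le_prod (fun i _ => by positivity) (fun i _ => hAc i)
    refine le_trans (le_of_eq ?_) h1
    rw [Finset.prod_const, Finset.card_univ, Fintype.card_fin, mul_pow]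
    congr 1
    rw [← Real.rpow_natCast, ← Real.rpow_mul (by positivity)]
    congr 1
    field_simp
  have hE0 : 0 ≤ ∏ i ∈ Finset.univ.erase i0, ((A i).card : ℝ) :=
    Finset.prod_nonneg (fun i _ => Nat.cast_nonneg _)
  have hprod : ((A i0).card : ℝ) * ∏ i ∈ Finset.univ.erase i0, ((A i).card : ℝ) =
      ∏ i, ((A i).card : ℝ) :=
    Finset.mul_prod_erase Finset.univ (fun i => ((A i).card : ℝ)) (Finset.mem_univ i0)
  -- the four sets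
  obtain ⟨A', hA'⟩ : ∃ A' : Fin n → Finset ℤ, A' = fun i => (A i).image (fun c => ρ i * c) :=
    ⟨_, rfl⟩
  have hA'c : ∀ i, ((A' i).card : ℝ) = ((A i).card : ℝ) := by
    intro i
    rw [hA']
    have h1 : Function.Injective (fun c : ℤ => ρ i * c) :=
      fun c c' hcc => mul_left_cancel₀ (hρ i) hcc
    exact_mod_cast Finset.card_image_of_injective _ h1
  obtain ⟨R', hR'⟩ : ∃ R' : Finset ℤ, R' = R.image (fun c => ρ i0 * c) := ⟨_, rfl⟩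
  have hR'c : (R'.card : ℝ) ≤ η * ((A i0).card : ℝ) := by
    rw [hR']
    refine le_trans ?_ hRc
    exact_mod_cast Finset.card_image_le
  obtain ⟨T1, hT1⟩ : ∃ T1 : Finset (Fin n → ℤ), T1 =
      Fintype.piFinset (Function.update A' i0 R') := ⟨_, rfl⟩
  obtain ⟨T2, hT2⟩ : ∃ T2 : Finset (Fin n → ℤ), T2 =
      Fintype.piFinset (Function.update A' i0 (NS S' m k N W)) := ⟨_, rfl⟩
  obtain ⟨V3, hV3⟩ : ∃ V3 : Finset (Fin (n + 2) → ℤ), V3 = V.filter (fun a =>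
      (∃ p : ℕ, p.Prime ∧ p ∉ S' ∧ z1 < (p : ℝ) ∧ (p : ℝ) ≤ z2 ∧ (p : ℤ) ∣ a (I i0)) ∧
        ∃ i, i ≠ I i0 ∧ ¬ Short S' m k W (a i)) := ⟨_, rfl⟩
  obtain ⟨V4, hV4⟩ : ∃ V4 : Finset (Fin (n + 2) → ℤ), V4 = V.filter (fun a =>
      ∀ i, Short S' m k W (a i)) := ⟨_, rfl⟩
  obtain ⟨π, hπ⟩ : ∃ π : (Fin (n + 2) → ℤ) → (Fin n → ℤ), π = fun a i => a (I i) := ⟨_, rfl⟩
  have hcover : V.image π ⊆ T1 ∪ (T2 ∪ (V3.image π ∪ V4.image π)) := by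
    intro v hv
    obtain ⟨a, ha, rfl⟩ := Finset.mem_image.mp hv
    obtain ⟨ha1, ha2, ha3, ha4, ha5⟩ := hV a ha
    choose c hc hca using ha5
    have hmemA' : ∀ i, π a i ∈ A' i := by
      intro i
      rw [hπ, hA']
      simp only
      rw [hca i]
      exact Finset.mem_image_of_mem _ (hc i)
    by_cases hro : ∀ p : ℕ, p.Prime → (M : ℝ) ^ (5 / (m : ℝ) ^ 2) < (p : ℝ) →
        (p : ℝ) ≤ (M : ℝ) ^ ((h : ℝ) / (m : ℝ) ^ 2) → ¬ (p : ℤ) ∣ c i0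
    · apply Finset.mem_union_left
      rw [hT1]
      apply mem_pi_update i0 A' R' (π a) _ hmemA'
      rw [hπ, hR']
      simp only
      rw [hca i0]
      exact Finset.mem_image_of_mem _ (hRm (c i0) (hc i0) hro)
    · push Not at hro
      obtain ⟨p, hp, hp1, hp2, hp3⟩ := hro
      have hpS : p ∉ S' := by
        intro hpS
        have h1 : p ≤ S'.sup id := Finset.le_sup (f := id) hpS
        have h2 : (p : ℝ) ≤ ((S'.sup id : ℕ) : ℝ) := by exact_mod_cast h1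
        rw [← hz1] at hp1
        linarith
      have hpa : (p : ℤ) ∣ a (I i0) := by
        rw [hca i0]
        exact hp3.mul_left _
      by_cases hs0 : Short S' m k W (a (I i0))
      · by_cases hs : ∃ i, i ≠ I i0 ∧ ¬ Short S' m k W (a i)
        · apply Finset.mem_union_right
          apply Finset.mem_union_right
          apply Finset.mem_union_left
          apply Finset.mem_image_of_mem
          rw [hV3, Finset.mem_filter]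
          exact ⟨ha, ⟨p, hp, hpS, by rw [hz1]; exact hp1, by rw [hz2]; exact hp2, hpa⟩, hs⟩
        · apply Finset.mem_union_right
          apply Finset.mem_union_right
          apply Finset.mem_union_right
          apply Finset.mem_image_of_mem
          rw [hV4, Finset.mem_filter]
          refine ⟨ha, fun i => ?_⟩
          by_cases hi : i = I i0
          · rw [hi]; exact hs0
          · by_contra hcon
            exact hs ⟨i, hi, hcon⟩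
      · apply Finset.mem_union_right
        apply Finset.mem_union_left
        rw [hT2]
        apply mem_pi_update i0 A' _ (π a) _ hmemA'
        rw [hπ]
        simp only
        rw [mem_NS]
        refine ⟨?_, hs0⟩
        rw [hNd]
        exact ha1 (I i0)
  -- the four bounds
  have hE' : ∏ i ∈ Finset.univ.erase i0, ((A' i).card : ℝ) =
      ∏ i ∈ Finset.univ.erase i0, ((A i).card : ℝ) :=
    Finset.prod_congr rfl (fun i _ => hA'c i)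
  have b1 : (T1.card : ℝ) ≤ η * ∏ i, ((A i).card : ℝ) := by
    rw [hT1, card_pi_update, hE', ← hprod, ← mul_assoc]
    exact mul_le_mul_of_nonneg_right hR'c hE0
  have b2 : (T2.card : ℝ) ≤ η * ∏ i, ((A i).card : ℝ) := by
    rw [hT2, card_pi_update, hE', ← hprod, ← mul_assoc]
    apply mul_le_mul_of_nonneg_right _ hE0
    calc ((NS S' m k N W).card : ℝ)
        ≤ C2 * (N : ℝ) ^ (1 / (m : ℝ) + 1 / (m : ℝ) ^ 2) * W ^ (-((k : ℝ) / (m : ℝ))) :=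
          h2 N hN1 W hW1
      _ = C2 * ((N : ℝ) ^ (1 / (m : ℝ) + 1 / (m : ℝ) ^ 2) * W ^ (-((k : ℝ) / (m : ℝ)))) := by ring
      _ ≤ C2 * (N : ℝ) ^ (1 / (m : ℝ) - 1 / (m : ℝ) ^ 2) :=
          mul_le_mul_of_nonneg_left hW3 (by linarith)
      _ ≤ η * κ * (B : ℝ) ^ (1 / (m : ℝ)) := e2
      _ = η * (κ * (B : ℝ) ^ (1 / (m : ℝ))) := by ring
      _ ≤ η * ((A i0).card : ℝ) := mul_le_mul_of_nonneg_left (hAc i0) hη.le
  have b3 : (V3.card : ℝ) ≤ η * ∏ i, ((A i).card : ℝ) := by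
    have h5 := h3 N hN1 W hW1 z1 z2 (le_trans e5 hBz1) hz21 (I i0) V3 (by
      intro a ha
      rw [hV3, Finset.mem_filter] at ha
      obtain ⟨ha0, ha6, ha7⟩ := ha
      obtain ⟨ha1, ha2, ha3, ha4, ha5⟩ := hV a ha0
      refine ⟨?_, ha2, ha3, ha6, ha7⟩
      rw [hNd]
      exact ha1)
    refine h5.trans ?_
    have h6 := hW4 z2 hz21 hz2N
    calc C3 * z2 ^ (1 + (m : ℝ) * (1 / ((m : ℝ) ^ 2 * ((n : ℝ) + h + 1)))) *
          (N : ℝ) ^ ((n : ℝ) * (1 / (m : ℝ) + 1 / ((m : ℝ) ^ 2 * ((n : ℝ) + h + 1)))) *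
          W ^ (-((k : ℝ) / (2 * (m : ℝ))))
        = C3 * (z2 ^ (1 + (m : ℝ) * (1 / ((m : ℝ) ^ 2 * ((n : ℝ) + h + 1)))) *
          (N : ℝ) ^ ((n : ℝ) * (1 / (m : ℝ) + 1 / ((m : ℝ) ^ 2 * ((n : ℝ) + h + 1)))) *
          W ^ (-((k : ℝ) / (2 * (m : ℝ))))) := by ring
      _ ≤ C3 * (N : ℝ) ^ ((n : ℝ) / (m : ℝ) - 1 / (m : ℝ) ^ 2) :=
          mul_le_mul_of_nonneg_left h6 (by linarith)
      _ ≤ η * κ ^ n * (B : ℝ) ^ ((n : ℝ) / (m : ℝ)) := e3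
      _ = η * (κ ^ n * (B : ℝ) ^ ((n : ℝ) / (m : ℝ))) := by ring
      _ ≤ η * ∏ i, ((A i).card : ℝ) := mul_le_mul_of_nonneg_left hprodlow hη.le
  have b4 : (V4.card : ℝ) ≤ η * ∏ i, ((A i).card : ℝ) := by
    have h5 := h4 N hN1 W hW1 V4 (by
      intro a ha
      rw [hV4, Finset.mem_filter] at ha
      obtain ⟨ha0, ha6⟩ := ha
      obtain ⟨ha1, ha2, ha3, ha4, ha5⟩ := hV a ha0
      refine ⟨?_, ha2, ?_, ha4, ha6⟩
      · rw [hNd]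
        exact ha1
      · intro p hp hpS
        obtain ⟨j, l, _, h7, _⟩ := ha3 p hp hpS
        exact ⟨j, h7⟩)
    refine h5.trans ?_
    rw [mul_assoc, hW2]
    refine e4.trans ?_
    rw [mul_assoc]
    exact mul_le_mul_of_nonneg_left hprodlow hη.le
  have c3 : ((V3.image π).card : ℝ) ≤ η * ∏ i, ((A i).card : ℝ) := by
    refine le_trans ?_ b3
    exact_mod_cast Finset.card_image_le
  have c4 : ((V4.image π).card : ℝ) ≤ η * ∏ i, ((A i).card : ℝ) := by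
    refine le_trans ?_ b4
    exact_mod_cast Finset.card_image_le
  have htot : (V.image π).card ≤ T1.card + (T2.card + ((V3.image π).card + (V4.image π).card)) := by
    refine (Finset.card_le_card hcover).trans ?_
    refine (Finset.card_union_le _ _).trans ?_
    gcongr
    refine (Finset.card_union_le _ _).trans ?_
    gcongr
    exact Finset.card_union_le _ _
  have htotR : ((V.image π).card : ℝ) ≤
      (T1.card : ℝ) + ((T2.card : ℝ) + (((V3.image π).card : ℝ) + ((V4.image π).card : ℝ))) := by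
    exact_mod_cast htot
  rw [hπ] at htotR c3 c4
  linarith

end Pool.Agent.Helper93.MT
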