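import Pool.Agent.Helper93.MT.Final

/-!
# MT-14 Sums: the case of sums of two coprime `m`-full numbers
-/

set_option autoImplicit false

open Pool.Agent.Helper87.Camp Pool.Agent.Helper91.CPX

namespace Pool.Agent.Helper93.MT

/-- The positive integers in which every prime has exponent zero or at least `m`. -/
def MFull (m c : ℕ) : Prop := 0 < c ∧ ∀ p : ℕ, p.Prime → p ∣ c → p ^ m ∣ c

/-- The sums of two coprime positive `m`-full integers. -/
def IsSum (m c : ℕ) : Prop := ∃ a b : ℕ, MFull m a ∧ MFull m b ∧ a.Coprime b ∧ a + b = c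

/-- The forms `x₀, x₁, x₀ + x₁`. -/
def L3 : Matrix (Fin (1 + 2)) (Fin (1 + 1)) ℤ := !![1, 0; 0, 1; 1, 1]

lemma minor_L3 : ∀ i, minor L3 i ≠ 0 := by
  intro i
  unfold minor L3
  fin_cases i <;> simp [Matrix.det_fin_two, Fin.succAbove]

lemma form_L3_0 (x : Fin (1 + 1) → ℤ) : form L3 0 x = x 0 := by
  unfold form L3
  simp [Fin.sum_univ_two]

lemma form_L3_1 (x : Fin (1 + 1) → ℤ) : form L3 1 x = x 1 := by
  unfold form L3
  simp [Fin.sum_univ_two]

lemma form_L3_2 (x : Fin (1 + 1) → ℤ) : form L3 2 x = x 0 + x 1 := by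
  unfold form L3
  simp [Fin.sum_univ_two]

/-- For `n = 1` the condition `NonDegenerate` always holds. -/
lemma nonDegenerate_one (L : Matrix (Fin (1 + 2)) (Fin (1 + 1)) ℤ) (hL : ∀ i, minor L i ≠ 0)
    (x : Fin (1 + 1) → ℤ) (hx : ∀ i, form L i x ≠ 0) : NonDegenerate L x := by
  have hrel : ∀ i, rel L i * form L i x ≠ 0 := by
    intro i
    apply mul_ne_zero _ (hx i)
    unfold rel
    exact mul_ne_zero (pow_ne_zero _ (by norm_num)) (hL i)
  have hsum := rel_form_sum L x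
  obtain ⟨t, ht⟩ : ∃ t : Fin (1 + 2) → ℤ, t = fun i => rel L i * form L i x := ⟨_, rfl⟩
  have ht0 : ∀ i, t i ≠ 0 := fun i => by rw [ht]; exact hrel i
  have hts : ∑ i, t i = 0 := by rw [ht]; exact hsum
  intro J hJ hJu
  have h1 : ∑ i ∈ J, rel L i * form L i x = ∑ i ∈ J, t i := by rw [ht]
  rw [h1]
  intro h0
  have h2 : ∑ i ∈ Jᶜ, t i = 0 := by
    have := Finset.sum_add_sum_compl J t
    omega
  have hc : J.card + Jᶜ.card = 3 := by
    rw [Finset.card_add_card_compl]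
    simp
  have hJ1 : 1 ≤ J.card := hJ.card_pos
  have hJ2 : 1 ≤ Jᶜ.card := by
    rw [Nat.one_le_iff_ne_zero]
    intro h
    rw [Finset.card_eq_zero, Finset.compl_eq_empty_iff] at h
    exact hJu h
  have h3 : J.card = 1 ∨ Jᶜ.card = 1 := by omega
  rcases h3 with h3 | h3
  · obtain ⟨i, hi⟩ := Finset.card_eq_one.mp h3
    rw [hi, Finset.sum_singleton] at h0
    exact ht0 i h0
  · obtain ⟨i, hi⟩ := Finset.card_eq_one.mp h3
    rw [hi, Finset.sum_singleton] at h2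
    exact ht0 i h2

lemma campana_L3 (m a b : ℕ) (ha : MFull m a) (hb : MFull m b) (hab : a.Coprime b)
    (hc : MFull m (a + b)) : IsCampana ∅ L3 (fun _ => (m : ℕ∞)) ![(a : ℤ), (b : ℤ)] := by
  refine ⟨?_, ?_, ?_⟩
  · intro d hd
    have h0 : d ∣ (a : ℤ) := hd 0
    have h1 : d ∣ (b : ℤ) := hd 1
    have h2 : IsCoprime (a : ℤ) (b : ℤ) := Nat.isCoprime_iff_coprime.mpr hab
    exact h2.isUnit_of_dvd' h0 h1
  · intro i
    have h0 := ha.1
    have h1 := hb.1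
    fin_cases i
    · change form L3 0 _ ≠ 0
      rw [form_L3_0]
      simp
      omega
    · change form L3 1 _ ≠ 0
      rw [form_L3_1]
      simp
      omega
    · change form L3 2 _ ≠ 0
      rw [form_L3_2]
      simp
      omega
  · intro i p hp _ hd
    have key : ∀ c : ℕ, MFull m c → (p : ℤ) ∣ (c : ℤ) → (m : ℕ∞) ≤ emultiplicity (p : ℤ) (c : ℤ) := by
      intro c hc hd
      apply le_emultiplicity_of_pow_dvd
      have h1 : p ∣ c := by exact_mod_cast hd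
      exact_mod_cast hc.2 p hp h1
    fin_cases i
    · change (p : ℤ) ∣ form L3 0 _ at hd
      change (m : ℕ∞) ≤ emultiplicity (p : ℤ) (form L3 0 _)
      rw [form_L3_0] at hd ⊢
      exact key a ha hd
    · change (p : ℤ) ∣ form L3 1 _ at hd
      change (m : ℕ∞) ≤ emultiplicity (p : ℤ) (form L3 1 _)
      rw [form_L3_1] at hd ⊢
      exact key b hb hd
    · change (p : ℤ) ∣ form L3 2 _ at hd
      change (m : ℕ∞) ≤ emultiplicity (p : ℤ) (form L3 2 _)
      rw [form_L3_2] at hd ⊢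
      have h1 : (![(a : ℤ), (b : ℤ)] 0 + ![(a : ℤ), (b : ℤ)] 1 : ℤ) = ((a + b : ℕ) : ℤ) := by
        push_cast
        rfl
      rw [h1] at hd ⊢
      exact key (a + b) hc hd

/-- The value `c = a + b` is in the set of values. -/
lemma mem_values (m X c : ℕ) (hcX : c ≤ X) (hc : MFull m c) (hs : IsSum m c) :
    (fun _ : Fin 1 => (c : ℤ)) ∈
      values ∅ L3 (fun _ => (m : ℕ∞)) (fun _ : Fin 1 => (2 : Fin (1 + 2))) (1 * X) := by
  obtain ⟨a, b, ha, hb, hab, rfl⟩ := hs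
  have hC := campana_L3 m a b ha hb hab hc
  refine ⟨![(a : ℤ), (b : ℤ)], hC, nonDegenerate_one L3 minor_L3 _ hC.ne_zero, ?_, ?_⟩
  · intro j
    fin_cases j
    · change |(a : ℤ)| ≤ _
      rw [Nat.abs_cast]
      push_cast
      omega
    · change |(b : ℤ)| ≤ _
      rw [Nat.abs_cast]
      push_cast
      omega
  · intro i
    rw [form_L3_2]
    push_cast
    rfl

lemma full_ncard (m X : ℕ) :
    (full ∅ m X).ncard ≤ 2 * {c : ℕ | c ≤ X ∧ MFull m c}.ncard := by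
  have hfin : {c : ℕ | c ≤ X ∧ MFull m c}.Finite :=
    (Set.finite_Iic X).subset (fun c hc => hc.1)
  have hsub : full ∅ m X ⊆ (fun c : ℕ => (c : ℤ)) '' {c : ℕ | c ≤ X ∧ MFull m c} ∪
      (fun c : ℕ => -(c : ℤ)) '' {c : ℕ | c ≤ X ∧ MFull m c} := by
    rintro c ⟨hc0, hcX, hc⟩
    have hmem : c.natAbs ∈ {c : ℕ | c ≤ X ∧ MFull m c} := by
      refine ⟨?_, ?_, ?_⟩
      · rw [Int.abs_eq_natAbs] at hcX
        exact_mod_cast hcX
      · exact Int.natAbs_pos.mpr hc0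
      · intro p hp hd
        have h1 : (p : ℤ) ∣ c := Int.natCast_dvd.mpr hd
        have h2 := hc p hp (Finset.notMem_empty p) h1
        rw [← Nat.cast_pow, Int.natCast_dvd] at h2
        exact h2
    rcases Int.natAbs_eq c with h | h
    · left
      exact ⟨c.natAbs, hmem, h.symm⟩
    · right
      exact ⟨c.natAbs, hmem, h.symm⟩
  calc (full ∅ m X).ncard
      ≤ ((fun c : ℕ => (c : ℤ)) '' {c : ℕ | c ≤ X ∧ MFull m c} ∪
        (fun c : ℕ => -(c : ℤ)) '' {c : ℕ | c ≤ X ∧ MFull m c}).ncard :=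
        Set.ncard_le_ncard hsub ((hfin.image _).union (hfin.image _))
    _ ≤ ((fun c : ℕ => (c : ℤ)) '' {c : ℕ | c ≤ X ∧ MFull m c}).ncard +
        ((fun c : ℕ => -(c : ℤ)) '' {c : ℕ | c ≤ X ∧ MFull m c}).ncard := Set.ncard_union_le _ _
    _ ≤ {c : ℕ | c ≤ X ∧ MFull m c}.ncard + {c : ℕ | c ≤ X ∧ MFull m c}.ncard :=
        add_le_add (Set.ncard_image_le hfin) (Set.ncard_image_le hfin)
    _ = 2 * {c : ℕ | c ≤ X ∧ MFull m c}.ncard := by ring

lemma powers_ncard (m Z : ℕ) (hm : 1 ≤ m) : (powers 1 m (Z ^ m)).ncard ≤ Z := by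
  have hsub : powers 1 m (Z ^ m) ⊆ (fun z : ℕ => (z : ℤ) ^ m) '' (Set.Icc 1 Z) := by
    rintro c ⟨hc, z, hz, rfl⟩
    refine ⟨z, ⟨hz, ?_⟩, by simp⟩
    rw [one_mul, abs_pow, Nat.abs_cast] at hc
    have h1 : z ^ m ≤ Z ^ m := by exact_mod_cast hc
    exact (Nat.pow_le_pow_iff_left (by omega)).mp h1
  have hfin : (Set.Icc 1 Z).Finite := Set.finite_Icc 1 Z
  refine (Set.ncard_le_ncard hsub (hfin.image _)).trans ?_
  refine (Set.ncard_image_le hfin).trans ?_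
  rw [← Finset.coe_Icc, Set.ncard_coe_finset, Nat.card_Icc]
  omega

theorem sums (δ : ℝ) (hδ : 0 < δ) : ∃ m₁ : ℕ, ∀ m : ℕ, m₁ ≤ m → ∃ X₀ : ℕ, ∀ X : ℕ, X₀ ≤ X →
    ({c : ℕ | c ≤ X ∧ MFull m c ∧ IsSum m c}.ncard : ℝ) ≤
      δ * ({c : ℕ | c ≤ X ∧ MFull m c}.ncard : ℝ) ∧
    ({z : ℕ | 1 ≤ z ∧ z ≤ X ∧ IsSum m (z ^ m)}.ncard : ℝ) ≤ δ * X := by
  obtain ⟨m1, hmain⟩ := most_full 1 le_rfl (δ / 2) (by positivity)
  refine ⟨max m1 1, fun m hmm => ?_⟩
  have hm : 1 ≤ m := le_trans (le_max_right _ _) hmm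
  obtain ⟨B1, hB1⟩ := hmain m (le_trans (le_max_left _ _) hmm) ∅ L3 minor_L3
    (fun _ => (m : ℕ∞)) (fun _ => le_rfl) (fun _ => (2 : Fin (1 + 2))) 1 (fun _ => 1)
    (fun _ => le_rfl) (fun _ B => full ∅ m (1 * B)) (fun _ => Or.inl rfl)
  obtain ⟨B2, hB2⟩ := hmain m (le_trans (le_max_left _ _) hmm) ∅ L3 minor_L3
    (fun _ => (m : ℕ∞)) (fun _ => le_rfl) (fun _ => (2 : Fin (1 + 2))) 1 (fun _ => 1)
    (fun _ => le_rfl) (fun _ B => powers 1 m (1 * B)) (fun _ => Or.inr ⟨1, one_ne_zero, rfl⟩)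
  refine ⟨max B1 B2, fun X hX => ⟨?_, ?_⟩⟩
  · obtain ⟨h1, h2⟩ := hB1 X (le_trans (le_max_left _ _) hX)
    simp only [Finset.univ_unique, Finset.prod_singleton] at h2
    have h3 : {c : ℕ | c ≤ X ∧ MFull m c ∧ IsSum m c}.ncard ≤
        {y ∈ values ∅ L3 (fun _ => (m : ℕ∞)) (fun _ : Fin 1 => (2 : Fin (1 + 2))) (1 * X) |
          ∀ i, y i ∈ full ∅ m (1 * X)}.ncard := by
      apply Set.ncard_le_ncard_of_injOn (fun (c : ℕ) (_ : Fin 1) => (c : ℤ)) _ _ h1
      · rintro c ⟨hcX, hc, hs⟩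
        refine ⟨mem_values m X c hcX hc hs, fun _ => ⟨?_, ?_, ?_⟩⟩
        · have := hc.1
          simp only
          omega
        · simp only
          rw [Nat.abs_cast]
          push_cast
          omega
        · intro p hp _ hd
          simp only at hd ⊢
          have h4 : p ∣ c := by exact_mod_cast hd
          exact_mod_cast hc.2 p hp h4
      · intro c _ c' _ hcc
        have := congrFun hcc 0
        simp only at this
        exact_mod_cast this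
    have h4 := full_ncard m (1 * X)
    rw [one_mul] at h4
    have h5 : ((full ∅ m (1 * X)).ncard : ℝ) ≤ 2 * ({c : ℕ | c ≤ X ∧ MFull m c}.ncard : ℝ) := by
      rw [one_mul]
      exact_mod_cast h4
    have h6 : ({c : ℕ | c ≤ X ∧ MFull m c ∧ IsSum m c}.ncard : ℝ) ≤
        ({y ∈ values ∅ L3 (fun _ => (m : ℕ∞)) (fun _ : Fin 1 => (2 : Fin (1 + 2))) (1 * X) |
          ∀ i, y i ∈ full ∅ m (1 * X)}.ncard : ℝ) := by exact_mod_cast h3
    have h7 : δ / 2 * ((full ∅ m (1 * X)).ncard : ℝ) ≤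
        δ / 2 * (2 * ({c : ℕ | c ≤ X ∧ MFull m c}.ncard : ℝ)) :=
      mul_le_mul_of_nonneg_left h5 (by positivity)
    linarith
  · have hXm : X ≤ X ^ m := Nat.le_self_pow (by omega) X
    obtain ⟨h1, h2⟩ := hB2 (X ^ m) (le_trans (le_trans (le_max_right _ _) hX) hXm)
    simp only [Finset.univ_unique, Finset.prod_singleton] at h2
    have h3 : {z : ℕ | 1 ≤ z ∧ z ≤ X ∧ IsSum m (z ^ m)}.ncard ≤
        {y ∈ values ∅ L3 (fun _ => (m : ℕ∞)) (fun _ : Fin 1 => (2 : Fin (1 + 2))) (1 * X ^ m) |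
          ∀ i, y i ∈ powers 1 m (1 * X ^ m)}.ncard := by
      apply Set.ncard_le_ncard_of_injOn (fun (z : ℕ) (_ : Fin 1) => ((z ^ m : ℕ) : ℤ)) _ _ h1
      · rintro z ⟨hz1, hzX, hs⟩
        have hzm : MFull m (z ^ m) :=
          ⟨pow_pos (by omega) m, fun p hp hd => pow_dvd_pow_of_dvd (hp.dvd_of_dvd_pow hd) m⟩
        have hzXm : z ^ m ≤ X ^ m := Nat.pow_le_pow_left hzX m
        refine ⟨mem_values m (X ^ m) (z ^ m) hzXm hzm hs, fun _ => ⟨?_, z, by omega, ?_⟩⟩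
        · simp only
          rw [Nat.abs_cast, one_mul]
          exact_mod_cast hzXm
        · push_cast
          ring
      · intro z _ z' _ hzz
        have h4 := congrFun hzz 0
        simp only at h4
        have h5 : z ^ m = z' ^ m := by exact_mod_cast h4
        exact (Nat.pow_left_injective (by omega : m ≠ 0)) h5
    have h4 := powers_ncard m X hm
    have h5 : ((powers 1 m (1 * X ^ m)).ncard : ℝ) ≤ X := by
      rw [one_mul]
      exact_mod_cast h4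
    have h6 : ({z : ℕ | 1 ≤ z ∧ z ≤ X ∧ IsSum m (z ^ m)}.ncard : ℝ) ≤
        ({y ∈ values ∅ L3 (fun _ => (m : ℕ∞)) (fun _ : Fin 1 => (2 : Fin (1 + 2))) (1 * X ^ m) |
          ∀ i, y i ∈ powers 1 m (1 * X ^ m)}.ncard : ℝ) := by exact_mod_cast h3
    have h7 : δ / 2 * ((powers 1 m (1 * X ^ m)).ncard : ℝ) ≤ δ / 2 * X :=
      mul_le_mul_of_nonneg_left h5 (by positivity)
    have h8 : (0 : ℝ) ≤ X := Nat.cast_nonneg _
    have h9 : δ / 2 * (X : ℝ) ≤ δ * X := by nlinarith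
    linarith

end Pool.Agent.Helper93.MT
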